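import Mathlib

/-! Global branches of simple roots over a simply connected parameter set. -/

set_option autoImplicit false

namespace Pool.Agent.MP_97ada9_an

open Set Filter Topology

theorem strict_equiv {F : ℂ × ℂ → ℂ} (hF : ContDiff ℂ 1 F) (p : ℂ × ℂ) {d : ℂ}
    (hd : HasDerivAt (fun z => F (p.1, z)) d p.2) (h0 : d ≠ 0) :
    ∃ L : (ℂ × ℂ) ≃L[ℂ] (ℂ × ℂ),
      HasStrictFDerivAt (fun x : ℂ × ℂ => (x.1, F x)) (L : (ℂ × ℂ) →L[ℂ] (ℂ × ℂ)) p := by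
  have h1 : HasStrictFDerivAt F (fderiv ℂ F p) p := hF.contDiffAt.hasStrictFDerivAt (by simp)
  set D := fderiv ℂ F p
  have h2 : D (0, 1) = d :=
    (h1.hasFDerivAt.comp_hasDerivAt p.2 (f := fun z => (p.1, z))
      ((hasDerivAt_const p.2 p.1).prodMk (hasDerivAt_id p.2))).unique hd
  have h3 : ∀ v, D (0, v) = v * d := fun v => by
    rw [← h2, ← smul_eq_mul, ← D.map_smul]; simp
  refine ⟨ContinuousLinearEquiv.ofBijective ((ContinuousLinearMap.fst ℂ ℂ ℂ).prod D) ?_ ?_, ?_⟩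
  · rw [LinearMap.ker_eq_bot']
    rintro ⟨u, v⟩ h
    simp only [ContinuousLinearMap.coe_coe, ContinuousLinearMap.prod_apply,
      ContinuousLinearMap.coe_fst', Prod.mk_eq_zero] at h
    obtain ⟨rfl, h⟩ := h
    rw [h3, mul_eq_zero] at h
    simp [h.resolve_right h0]
  · rw [LinearMap.range_eq_top]
    rintro ⟨a, b⟩
    refine ⟨(a, (b - D (a, 0)) / d), ?_⟩
    have : D (a, (b - D (a, 0)) / d) = D (a, 0) + D (0, (b - D (a, 0)) / d) := by
      rw [← D.map_add]; simp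
    simp only [ContinuousLinearMap.coe_coe, ContinuousLinearMap.prod_apply,
      ContinuousLinearMap.coe_fst', Prod.mk.injEq, true_and]
    rw [this, h3]; field_simp; ring
  · exact hasStrictFDerivAt_fst.prodMk h1

theorem branch_diff {F : ℂ × ℂ → ℂ} (hF : ContDiff ℂ 1 F) {ζ : ℂ → ℂ} {t d : ℂ}
    (hc : ContinuousAt ζ t) (hz : ∀ᶠ s in 𝓝 t, F (s, ζ s) = 0)
    (hd : HasDerivAt (fun z => F (t, z)) d (ζ t)) (h0 : d ≠ 0) : DifferentiableAt ℂ ζ t := by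
  obtain ⟨L, hL⟩ := strict_equiv hF (t, ζ t) hd h0
  have h1 : Tendsto (fun s => (s, ζ s)) (𝓝 t) (𝓝 (t, ζ t)) := continuousAt_id.prodMk hc
  have h2 := h1.eventually hL.eventually_left_inverse
  have h3 := hL.to_localInverse.hasFDerivAt.differentiableAt
  simp only [hz.self_of_nhds] at h3
  have h4 : DifferentiableAt ℂ (fun s : ℂ => (hL.localInverse _ _ _ (s, 0)).2) t :=
    (h3.comp t (f := fun s : ℂ => (s, (0 : ℂ))) (by fun_prop)).snd
  refine h4.congr_of_eventuallyEq ?_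
  filter_upwards [h2, hz] with s e1 e2
  simp only [e2] at e1
  rw [e1]

theorem root_near {F : ℂ × ℂ → ℂ} (hF : ContDiff ℂ 1 F) {t z d : ℂ} (hz : F (t, z) = 0)
    (hd : HasDerivAt (fun z => F (t, z)) d z) (h0 : d ≠ 0) {V : Set ℂ} (hV : V ∈ 𝓝 z) :
    ∀ᶠ s in 𝓝 t, ∃ w ∈ V, F (s, w) = 0 := by
  obtain ⟨L, hL⟩ := strict_equiv hF (t, z) hd h0
  have h1 : (fun x : ℂ × ℂ => (x.1, F x)) '' (univ ×ˢ V) ∈ 𝓝 (t, (0 : ℂ)) := by
    have := hL.map_nhds_eq_of_equiv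
    simp only [hz] at this
    rw [← this]
    exact image_mem_map (prod_mem_nhds univ_mem hV)
  have h2 : Tendsto (fun s : ℂ => (s, (0 : ℂ))) (𝓝 t) (𝓝 (t, 0)) :=
    continuousAt_id.prodMk continuousAt_const
  filter_upwards [h2 h1] with s hs
  obtain ⟨⟨a, w⟩, ⟨-, hw⟩, h⟩ := hs
  obtain ⟨rfl, h'⟩ := Prod.mk.inj h
  exact ⟨w, hw, h'⟩

theorem branch {F : ℂ × ℂ → ℂ} (hF : ContDiff ℂ 1 F)
    (hcl : IsClosedMap fun x : ℂ × ℂ => (x.1, F x)) (S : Set ℂ)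
    (hfin : ∀ t ∈ S, {z | F (t, z) = 0}.Finite)
    (hs : ∀ t ∈ S, ∀ z, F (t, z) = 0 → ∃ d, d ≠ 0 ∧ HasDerivAt (fun z => F (t, z)) d z)
    [SimplyConnectedSpace S] [LocallyPathConnectedSpace S] :
    (∀ t ∈ S, ∀ z, F (t, z) = 0 →
      ∃ ζ : ℂ → ℂ, ContinuousOn ζ S ∧ (∀ s ∈ S, F (s, ζ s) = 0) ∧ ζ t = z) ∧
    ∀ ζ η : ℂ → ℂ, ContinuousOn ζ S → ContinuousOn η S → (∀ s ∈ S, F (s, ζ s) = 0) →
      (∀ s ∈ S, F (s, η s) = 0) → ∀ t ∈ S, ζ t = η t → ∀ s ∈ S, ζ s = η s := by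
  classical
  set Φ : ℂ × ℂ → ℂ × ℂ := fun x => (x.1, F x) with hΦ
  set W : Set (ℂ × ℂ) := S ×ˢ {0} with hW
  have cov : IsCoveringMapOn Φ W := by
    refine hcl.isCoveringMapOn_of_isLocalHomeomorphOn (fun x hx => ?_) fun x hx => ?_
    · refine ((hfin x.1 hx.1).image fun z => (x.1, z)).subset fun y hy => ?_
      obtain rfl : Φ y = x := hy
      exact ⟨y.2, hx.2, rfl⟩
    · obtain ⟨d, h0, hd⟩ := hs x.1 hx.1 x.2 hx.2
      obtain ⟨L, hL⟩ := strict_equiv hF x hd h0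
      exact ⟨hL.toOpenPartialHomeomorph _, hL.mem_toOpenPartialHomeomorph_source, rfl⟩
  have cov' := cov.isCoveringMap_restrictPreimage
  let f : C(S, W) := ⟨fun s => ⟨(s, 0), s.2, rfl⟩, by fun_prop⟩
  constructor
  · intro t ht z hz
    obtain ⟨G, ⟨h1, h2⟩, -⟩ := cov'.existsUnique_continuousMap_lifts f ⟨t, ht⟩
      ⟨(t, z), ht, hz⟩ (Subtype.ext (Prod.ext rfl hz))
    refine ⟨fun s => if h : s ∈ S then (G ⟨s, h⟩).1.2 else 0, ?_, fun s hs => ?_, ?_⟩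
    · rw [continuousOn_iff_continuous_domRestrict]
      have : Continuous fun s : S => (G s).1.2 := by fun_prop
      exact this.congr fun s => by simp [s.2]
    · have e : Φ (G ⟨s, hs⟩).1 = (s, 0) := congrArg Subtype.val (congrFun h2 ⟨s, hs⟩)
      obtain ⟨e1, e2⟩ := Prod.mk.inj e
      simp only [dif_pos hs]
      rw [← e2]
      congr 1
      exact Prod.ext e1.symm rfl
    · simp only [dif_pos ht, h1]
  · intro ζ η h1 h2 h3 h4 t ht h s hs
    rw [continuousOn_iff_continuous_domRestrict] at h1 h2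
    have := cov'.eq_of_comp_eq (A := S) (g₁ := fun s => ⟨(s, ζ s), s.2, h3 s s.2⟩)
      (g₂ := fun s => ⟨(s, η s), s.2, h4 s s.2⟩)
      (Continuous.subtype_mk (continuous_subtype_val.prodMk h1) _)
      (Continuous.subtype_mk (continuous_subtype_val.prodMk h2) _)
      (funext fun s => Subtype.ext (Prod.ext rfl ((h3 s s.2).trans (h4 s s.2).symm)))
      ⟨t, ht⟩ (Subtype.ext (Prod.ext rfl h))
    exact congrArg (fun x => x.1.2) (congrFun this ⟨s, hs⟩)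

end Pool.Agent.MP_97ada9_an
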