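import Mathlib

/-! Digits of natural numbers in base `2^K` and the bit operations used for packed
polynomial arithmetic. -/

set_option autoImplicit false

namespace Pool.Agent.MP_97ada9_an

open Finset

/-- the `n`-th digit of `X` in base `2^K` -/
def dg (K X n : ℕ) : ℕ := X / (2 ^ K) ^ n % 2 ^ K

theorem dg_lt (K X n : ℕ) : dg K X n < 2 ^ K := Nat.mod_lt _ (by positivity)

theorem sum_lt_pow (B L : ℕ) (z : ℕ → ℕ) (hz : ∀ n < L, z n < B) :
    ∑ n ∈ range L, z n * B ^ n < B ^ L := by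
  induction L with
  | zero => simp
  | succ L ih =>
    rw [sum_range_succ]
    have h1 := ih (fun n hn => hz n (by omega))
    have h2 : z L + 1 ≤ B := hz L (by omega)
    calc _ < B ^ L + z L * B ^ L := by omega
      _ = (z L + 1) * B ^ L := by ring
      _ ≤ B * B ^ L := Nat.mul_le_mul_right _ h2
      _ = B ^ (L + 1) := by ring

theorem dg_sum (K L : ℕ) (z : ℕ → ℕ) (hz : ∀ n < L, z n < 2 ^ K) (n : ℕ) :
    dg K (∑ i ∈ range L, z i * (2 ^ K) ^ i) n = if n < L then z n else 0 := by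
  induction L with
  | zero => simp [dg]
  | succ L ih =>
    have ih' := ih (fun n hn => hz n (by omega))
    have hB : 0 < 2 ^ K := by positivity
    rcases lt_trichotomy n L with h | h | h
    · rw [if_pos h] at ih'
      rw [if_pos (by omega), sum_range_succ, ← ih']
      unfold dg
      obtain ⟨d, rfl⟩ : ∃ d, L = n + (d + 1) := ⟨L - n - 1, by omega⟩
      have : z (n + (d + 1)) * (2 ^ K) ^ (n + (d + 1)) =
          (2 ^ K) ^ n * (2 ^ K * (z (n + (d + 1)) * (2 ^ K) ^ d)) := by ring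
      rw [this, Nat.add_mul_div_left _ _ (by positivity), Nat.add_mul_mod_self_left]
    · subst h
      rw [if_pos (by omega), sum_range_succ]
      unfold dg
      have h1 := sum_lt_pow (2 ^ K) n z (fun i hi => hz i (by omega))
      rw [Nat.add_mul_div_right _ _ (by positivity), Nat.div_eq_of_lt h1, zero_add,
        Nat.mod_eq_of_lt (hz n (by omega))]
    · rw [if_neg (by omega)]
      have h1 := sum_lt_pow (2 ^ K) (L + 1) z hz
      have h2 : (2 ^ K) ^ (L + 1) ≤ (2 ^ K) ^ n := Nat.pow_le_pow_right hB (by omega)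
      unfold dg
      rw [Nat.div_eq_of_lt (by omega)]
      simp

theorem mod_eq_sum_dg (K X L : ℕ) :
    X % (2 ^ K) ^ L = ∑ n ∈ range L, dg K X n * (2 ^ K) ^ n := by
  induction L with
  | zero => simp [Nat.mod_one]
  | succ L ih => rw [Nat.mod_pow_succ, ih, sum_range_succ, dg]; ring

theorem eq_sum_dg (K X L : ℕ) (h : X < (2 ^ K) ^ L) :
    X = ∑ n ∈ range L, dg K X n * (2 ^ K) ^ n := by
  rw [← mod_eq_sum_dg, Nat.mod_eq_of_lt h]

theorem dg_land (K X Y n : ℕ) : dg K (Nat.land X Y) n = dg K X n &&& dg K Y n := by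
  unfold dg
  rw [Nat.land_eq, ← pow_mul, Nat.and_div_two_pow, Nat.and_mod_two_pow]

theorem dg_shift (K X j n : ℕ) (hj : j ≤ K) :
    dg K (Nat.shiftRight X j) n % 2 ^ (K - j) = dg K X n / 2 ^ j := by
  unfold dg
  have h0 : Nat.shiftRight X j = X / 2 ^ j := Nat.shiftRight_eq_div_pow X j
  have h1 : (2 : ℕ) ^ K = 2 ^ j * 2 ^ (K - j) := by rw [← pow_add]; congr 1; omega
  rw [h0, Nat.div_div_eq_div_mul, mul_comm (2 ^ j), ← Nat.div_div_eq_div_mul,
    Nat.mod_mod_of_dvd _ (pow_dvd_pow 2 (Nat.sub_le K j))]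
  generalize X / (2 ^ K) ^ n = Y
  rw [h1, Nat.mod_mul_right_div_self]

theorem mod_sum (B L : ℕ) (z : ℕ → ℕ) (hB : 1 ≤ B) (hz : ∑ n ∈ range L, z n < B - 1) :
    (∑ n ∈ range L, z n * B ^ n) % (B - 1) = ∑ n ∈ range L, z n := by
  have h1 : B ≡ 1 [MOD (B - 1)] := by
    have : B = (B - 1) + 1 := by omega
    rw [this]
    simp [Nat.ModEq]
  have h2 : ∀ L, (∑ n ∈ range L, z n * B ^ n) ≡ ∑ n ∈ range L, z n [MOD (B - 1)] := by
    intro L
    induction L with
    | zero => simp [Nat.ModEq]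
    | succ L ih =>
      rw [sum_range_succ, sum_range_succ]
      refine ih.add ?_
      have := (h1.pow L).mul_left (z L)
      simpa using this
  have := h2 L
  unfold Nat.ModEq at this
  rw [this, Nat.mod_eq_of_lt hz]

/-- the number with `L` digits equal to one in base `B` -/
noncomputable def ones (B L : ℕ) : ℕ := Nat.div (Nat.sub (Nat.pow B L) 1) (Nat.sub B 1)

theorem ones_eq (B L : ℕ) (hB : 2 ≤ B) : ones B L = ∑ n ∈ range L, B ^ n :=
  (Nat.geomSum_eq hB L).symm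

/-- positive part of a packed signed number given with offset `2^(K-2)` in each of `L` digits -/
noncomputable def posPart' (K L Z : ℕ) : ℕ :=
  Nat.land Z (Nat.mul (Nat.land (Nat.shiftRight Z (Nat.sub K 2)) (ones (Nat.pow 2 K) L))
    (Nat.sub (Nat.pow 2 (Nat.sub K 2)) 1))

theorem posPart'_eq (K L : ℕ) (hK : 2 ≤ K) (c : ℕ → ℤ) (hc : ∀ n < L, |c n| < 2 ^ (K - 2))
    (Z : ℕ) (hZ : (Z : ℤ) = ∑ n ∈ range L, (c n + 2 ^ (K - 2)) * (2 ^ K) ^ n) :
    posPart' K L Z = ∑ n ∈ range L, (c n).toNat * (2 ^ K) ^ n := by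
  obtain ⟨k, rfl⟩ : ∃ k, K = k + 2 := ⟨K - 2, by omega⟩
  simp only [Nat.add_sub_cancel] at hc hZ
  have hB : 2 ≤ 2 ^ (k + 2) := by
    have : 1 ≤ 2 ^ k := Nat.one_le_two_pow
    rw [pow_add]; omega
  have h4 : (2 : ℕ) ^ (k + 2) = 4 * 2 ^ k := by ring
  have hH : 0 < 2 ^ k := by positivity
  set z : ℕ → ℕ := fun n => (c n + 2 ^ k).toNat with hzdef
  have hz1 : ∀ n < L, (z n : ℤ) = c n + 2 ^ k := by
    intro n hn
    have := abs_lt.1 (hc n hn)
    simp only [hzdef]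
    rw [Int.toNat_of_nonneg (by linarith)]
  have hz2 : ∀ n < L, z n < 2 * 2 ^ k := by
    intro n hn
    have := abs_lt.1 (hc n hn)
    have h := hz1 n hn
    zify
    linarith
  have hZ' : Z = ∑ n ∈ range L, z n * (2 ^ (k + 2)) ^ n := by
    zify
    rw [hZ]
    refine sum_congr rfl fun n hn => ?_
    rw [hz1 n (mem_range.1 hn)]
  have hdZ : ∀ n < L, dg (k + 2) Z n = z n := by
    intro n hn
    rw [hZ', dg_sum _ _ _ (fun n hn => by have := hz2 n hn; omega), if_pos hn]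
  set R := ones (Nat.pow 2 (k + 2)) L with hR
  have hR' : R = ∑ n ∈ range L, 1 * (2 ^ (k + 2)) ^ n := by
    rw [hR]; simpa using ones_eq (2 ^ (k + 2)) L hB
  have hRlt : R < (2 ^ (k + 2)) ^ L := by
    rw [hR']; exact sum_lt_pow _ _ _ (fun n _ => by omega)
  have hdR : ∀ n < L, dg (k + 2) R n = 1 := by
    intro n hn
    rw [hR', dg_sum _ _ (fun _ => 1) (fun n _ => by omega), if_pos hn]
  set σ := Nat.land (Nat.shiftRight Z k) R with hσ
  have hdσ : ∀ n < L, dg (k + 2) σ n = z n / 2 ^ k := by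
    intro n hn
    rw [hσ, dg_land, hdR n hn, Nat.and_one_is_mod]
    have h := dg_shift (k + 2) Z k n (by omega)
    rw [hdZ n hn, show k + 2 - k = 2 by omega] at h
    have h3 : z n / 2 ^ k < 2 := by
      rw [Nat.div_lt_iff_lt_mul hH]; exact hz2 n hn
    omega
  have hσlt : σ < (2 ^ (k + 2)) ^ L := lt_of_le_of_lt Nat.and_le_right hRlt
  have hσ' : σ * (2 ^ k - 1) = ∑ n ∈ range L, (z n / 2 ^ k * (2 ^ k - 1)) * (2 ^ (k + 2)) ^ n := by
    conv_lhs => rw [eq_sum_dg _ _ _ hσlt, sum_mul]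
    refine sum_congr rfl fun n hn => ?_
    rw [hdσ n (mem_range.1 hn)]; ring
  have hlt : ∀ n < L, z n / 2 ^ k * (2 ^ k - 1) < 2 ^ (k + 2) := by
    intro n hn
    have h3 : z n / 2 ^ k < 2 := by
      rw [Nat.div_lt_iff_lt_mul hH]; exact hz2 n hn
    have : z n / 2 ^ k * (2 ^ k - 1) ≤ 1 * (2 ^ k - 1) := Nat.mul_le_mul_right _ (by omega)
    omega
  have hP : posPart' (k + 2) L Z = Nat.land Z (σ * (2 ^ k - 1)) := rfl
  have hZlt : Z < (2 ^ (k + 2)) ^ L := by
    rw [hZ']; exact sum_lt_pow _ _ _ (fun n hn => by have := hz2 n hn; omega)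
  have hPlt : Nat.land Z (σ * (2 ^ k - 1)) < (2 ^ (k + 2)) ^ L :=
    lt_of_le_of_lt Nat.and_le_left hZlt
  rw [hP, eq_sum_dg _ _ _ hPlt]
  refine sum_congr rfl fun n hn => ?_
  have hn' := mem_range.1 hn
  congr 1
  rw [dg_land, hdZ n hn', hσ', dg_sum _ _ _ hlt, if_pos hn']
  have h1 := hz1 n hn'
  have h2 := hz2 n hn'
  rcases lt_or_ge (z n) (2 ^ k) with h | h
  · rw [Nat.div_eq_of_lt h]
    have : c n < 0 := by
      have : (z n : ℤ) < 2 ^ k := by exact_mod_cast h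
      linarith
    rw [Int.toNat_of_nonpos this.le]; simp
  · have h3 : z n / 2 ^ k = 1 := by
      rw [Nat.div_eq_iff hH]; omega
    rw [h3, one_mul, Nat.and_two_pow_sub_one_eq_mod]
    have h5 : z n % 2 ^ k = z n - 2 ^ k := by
      rw [Nat.mod_eq_sub_mod h, Nat.mod_eq_of_lt (by omega)]
    rw [h5]
    have h6 : (2 : ℤ) ^ k ≤ z n := by exact_mod_cast h
    have h7 : ((c n).toNat : ℤ) = c n := Int.toNat_of_nonneg (by linarith)
    zify [h]
    linarith

/-- rescaling by `2^p` and masking of a packed nonnegative number -/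
theorem dg_rescale (K p L I : ℕ) (hp : p ≤ K) (x : ℕ → ℕ) (hx : ∀ n < L, x n < 2 ^ K)
    (κ : ℕ → Bool) (Mk : ℕ)
    (hMk : Mk = ∑ n ∈ range I, (if κ n then 2 ^ (K - p) - 1 else 0) * (2 ^ K) ^ n) :
    Nat.land (Nat.shiftRight (∑ n ∈ range L, x n * (2 ^ K) ^ n) p) Mk =
      ∑ n ∈ range I, (if κ n = true ∧ n < L then x n / 2 ^ p else 0) * (2 ^ K) ^ n := by
  have hle : 2 ^ (K - p) ≤ 2 ^ K := Nat.pow_le_pow_right (by norm_num) (by omega)
  have hpos : 0 < 2 ^ (K - p) := by positivity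
  have hd : ∀ n < I, (if κ n then 2 ^ (K - p) - 1 else 0) < 2 ^ K := by
    intro n _
    split_ifs <;> omega
  have hlt : Mk < (2 ^ K) ^ I := by rw [hMk]; exact sum_lt_pow _ _ _ hd
  have hlt' : Nat.land (Nat.shiftRight (∑ n ∈ range L, x n * (2 ^ K) ^ n) p) Mk < (2 ^ K) ^ I :=
    lt_of_le_of_lt Nat.and_le_right hlt
  rw [eq_sum_dg K _ I hlt']
  refine sum_congr rfl fun n hn => ?_
  congr 1
  rw [dg_land, hMk, dg_sum _ _ _ hd, if_pos (mem_range.1 hn)]
  by_cases h : κ n = true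
  · rw [if_pos h, Nat.and_two_pow_sub_one_eq_mod, dg_shift _ _ _ _ hp, dg_sum _ _ _ hx]
    by_cases h2 : n < L <;> simp [h, h2]
  · simp [h]

end Pool.Agent.MP_97ada9_an
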