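import Pool.Agent.MP_97ada9_an.Trap

/-! The rescaled polynomial near its `a`-th root and the assembly of the root chain. -/

set_option autoImplicit false

namespace Pool.Agent.MP_97ada9_an

open Finset

noncomputable def uu (a b m : ℕ) : ℂ := ∏ s ∈ range m, (1 - (s : ℂ) / b) / (1 + (s : ℂ) / a)

noncomputable def term (a b : ℕ) (q v : ℂ) (i : ℕ) : ℂ :=
  (-1) ^ (i + 1) * q ^ ((i + 1).choose 2) * (uu a b (i + 1) * v ^ (i + 1) - uu b a (i + 1) * v⁻¹ ^ i)

noncomputable def G (a b : ℕ) (q v : ℂ) : ℂ := ∑ i ∈ range (a + b), term a b q v i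

theorem uu_succ (a b m : ℕ) : uu a b (m + 1) = uu a b m * ((1 - (m : ℂ) / b) / (1 + (m : ℂ) / a)) :=
  prod_range_succ _ _

theorem uu_one (a b : ℕ) : uu a b 1 = 1 := by simp [uu]

theorem uu_zero (a b m : ℕ) (hb : 0 < b) (h : b < m) : uu a b m = 0 := by
  refine prod_eq_zero (mem_range.2 h) ?_
  have : (b : ℂ) ≠ 0 := by exact_mod_cast hb.ne'
  rw [div_self this]; simp

theorem one_add_ne (a m : ℕ) : (1 : ℂ) + (m : ℂ) / a ≠ 0 := by
  have h : (0 : ℝ) < 1 + (m : ℝ) / a := by positivity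
  have e : (1 : ℂ) + (m : ℂ) / a = ((1 + (m : ℝ) / a : ℝ) : ℂ) := by push_cast; rfl
  rw [e]
  exact Complex.ofReal_ne_zero.2 h.ne'

theorem G_symm (a b : ℕ) (q v : ℂ) (hv : v ≠ 0) : G a b q v = -v * G b a q v⁻¹ := by
  unfold G
  rw [add_comm b a, mul_sum]
  refine sum_congr rfl fun i _ => ?_
  unfold term
  rw [inv_inv]
  have : v * v⁻¹ ^ (i + 1) = v⁻¹ ^ i := by rw [pow_succ]; field_simp
  rw [← this]; ring

theorem choose_uu (a b m : ℕ) (hm : m ≤ b + 1) :
    ((a + b + 1).choose (a + m) : ℂ) * (((a + 1 : ℕ) : ℂ) / ((b + 1 : ℕ) : ℂ)) ^ m =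
      ((a + b + 1).choose a : ℂ) * uu (a + 1) (b + 1) m := by
  induction m with
  | zero => simp [uu]
  | succ m ih =>
    have h1 := Nat.choose_succ_right_eq (a + b + 1) (a + m)
    rw [show a + b + 1 - (a + m) = b + 1 - m by omega] at h1
    have h2 : ((a + b + 1).choose (a + m + 1) : ℂ) * (a + m + 1) =
        ((a + b + 1).choose (a + m) : ℂ) * (b + 1 - m) := by
      have := congrArg (Nat.cast : ℕ → ℂ) h1
      rw [Nat.cast_mul, Nat.cast_mul, Nat.cast_sub (by omega)] at this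
      push_cast at this
      exact this
    rw [uu_succ, ← mul_assoc, ← ih (by omega), ← add_assoc]
    have ha : (a : ℂ) + 1 ≠ 0 := by exact_mod_cast Nat.succ_ne_zero a
    have hb : (b : ℂ) + 1 ≠ 0 := by exact_mod_cast Nat.succ_ne_zero b
    have hm' : (a : ℂ) + m + 1 ≠ 0 := by exact_mod_cast Nat.succ_ne_zero (a + m)
    have h3 : ((a + b + 1).choose (a + m + 1) : ℂ) =
        ((a + b + 1).choose (a + m) : ℂ) * (b + 1 - m) / (a + m + 1) := by
      rw [← h2]; field_simp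
    rw [h3]
    push_cast
    have h4 : (1 : ℂ) + m / (a + 1) = (a + m + 1) / (a + 1) := by field_simp; ring
    rw [h4, pow_succ]
    generalize (((a : ℂ) + 1) / ((b : ℂ) + 1)) ^ m = r
    field_simp

theorem choose_two_add (a m : ℕ) : (a + m).choose 2 = a.choose 2 + m.choose 2 + a * m := by
  induction m with
  | zero => simp
  | succ m ih =>
    rw [← add_assoc, Nat.choose_succ_succ' (a + m) 1, Nat.choose_succ_succ' m 1, ih]
    simp only [Nat.choose_one_right]; ring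

theorem two_choose (i : ℕ) : 2 * i.choose 2 + i = i * i := by
  induction i with
  | zero => simp
  | succ i ih =>
    rw [Nat.choose_succ_succ' i 1, Nat.choose_one_right]
    nlinarith

theorem eval_eq (a b : ℕ) (q v z : ℂ) (hv : v ≠ 0)
    (hz : z * q ^ a = -(((a + 1 : ℕ) : ℂ) / ((b + 1 : ℕ) : ℂ)) * v) :
    ∑ n ∈ range (a + b + 1 + 1), ((a + b + 1).choose n : ℂ) * q ^ (n.choose 2) * z ^ n =
      ((a + b + 1).choose a : ℂ) * q ^ (a.choose 2) * z ^ a * G (a + 1) (b + 1) q v := by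
  have ha : ((a + 1 : ℕ) : ℂ) ≠ 0 := by exact_mod_cast Nat.succ_ne_zero a
  have hb : ((b + 1 : ℕ) : ℂ) ≠ 0 := by exact_mod_cast Nat.succ_ne_zero b
  set r : ℂ := ((a + 1 : ℕ) : ℂ) / ((b + 1 : ℕ) : ℂ) with hr
  have hr0 : r ≠ 0 := div_ne_zero ha hb
  rw [show a + b + 1 + 1 = (a + 1) + (b + 1) by ring, sum_range_add, ← sum_range_reflect, G]
  simp only [term, mul_sub, sum_sub_distrib, mul_sum]
  rw [add_comm, sub_eq_add_neg, ← sum_neg_distrib]
  congr 1
  · refine sum_subset_zero_on_sdiff (range_subset_range.2 (by omega)) (fun i hi => ?_)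
      fun i hi => ?_
    · rw [uu_zero (a + 1) (b + 1) (i + 1) (by omega) (by simp at hi; omega)]; simp
    · have h1 := choose_uu a b (i + 1) (by simp at hi; omega)
      rw [← hr] at h1
      rw [show a + 1 + i = a + (i + 1) by ring, choose_two_add]
      have h2 : (z * q ^ a) ^ (i + 1) = (-1) ^ (i + 1) * r ^ (i + 1) * v ^ (i + 1) := by
        rw [hz, mul_pow, neg_pow]
      calc _ = ((a + b + 1).choose (a + (i + 1)) : ℂ) * q ^ (a.choose 2) * z ^ a *
            q ^ ((i + 1).choose 2) * (z * q ^ a) ^ (i + 1) := by ring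
        _ = (((a + b + 1).choose (a + (i + 1)) : ℂ) * r ^ (i + 1)) * q ^ (a.choose 2) * z ^ a *
            q ^ ((i + 1).choose 2) * (-1) ^ (i + 1) * v ^ (i + 1) := by rw [h2]; ring
        _ = _ := by rw [h1]; ring
  · refine sum_subset_zero_on_sdiff (range_subset_range.2 (by omega)) (fun i hi => ?_)
      fun i hi => ?_
    · rw [uu_zero (b + 1) (a + 1) (i + 1) (by omega) (by simp at hi; omega)]; simp
    · obtain ⟨k, hk⟩ : ∃ k, a = k + i := ⟨a - i, by simp at hi; omega⟩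
      have h1 := choose_uu b a (i + 1) (by omega)
      have h2 := choose_uu a b 1 (by omega)
      rw [← hr, uu_one, pow_one, mul_one] at h2
      have e1 : (b + a + 1).choose (b + (i + 1)) = (a + b + 1).choose k := by
        rw [add_comm b a]; exact Nat.choose_symm_of_eq_add (by omega)
      have e2 : (b + a + 1).choose b = (a + b + 1).choose (a + 1) := by
        rw [add_comm b a]; exact Nat.choose_symm_of_eq_add (by omega)
      have e3 : ((b + 1 : ℕ) : ℂ) / ((a + 1 : ℕ) : ℂ) = r⁻¹ := by rw [hr, inv_div]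
      rw [e1, e2, e3] at h1
      rw [show a + 1 - 1 - i = k by omega]
      have e4 : k.choose 2 + a * i = a.choose 2 + (i + 1).choose 2 := by
        have := two_choose i
        rw [hk, choose_two_add, Nat.choose_succ_succ' i 1, Nat.choose_one_right]
        nlinarith
      have h3 : (z * q ^ a) ^ i = (-1) ^ i * r ^ i * v ^ i := by rw [hz, mul_pow, neg_pow]
      have h4 : (z * q ^ a) ^ i ≠ 0 := by
        rw [h3]; exact mul_ne_zero (mul_ne_zero (by simp) (pow_ne_zero _ hr0)) (pow_ne_zero _ hv)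
      refine mul_right_cancel₀ h4 ?_
      have h5 : ((a + b + 1).choose k : ℂ) = ((a + b + 1).choose a : ℂ) * uu (b + 1) (a + 1) (i + 1)
          * r ^ i := by
        rw [← h2]
        have : ((a + b + 1).choose k : ℂ) = ((a + b + 1).choose k : ℂ) * r⁻¹ ^ (i + 1) *
          r ^ (i + 1) := by rw [mul_assoc, ← mul_pow, inv_mul_cancel₀ hr0]; simp
        rw [this, h1]; ring
      have h6 : v⁻¹ ^ i * v ^ i = 1 := by rw [← mul_pow, inv_mul_cancel₀ hv, one_pow]
      have h7 : ((-1 : ℂ)) ^ i * (-1) ^ i = 1 := by rw [← mul_pow]; simp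
      calc _ = ((a + b + 1).choose k : ℂ) * q ^ (k.choose 2 + a * i) * z ^ (k + i) := by ring
        _ = ((a + b + 1).choose a : ℂ) * uu (b + 1) (a + 1) (i + 1) * r ^ i *
            q ^ (a.choose 2 + (i + 1).choose 2) * z ^ a * (v⁻¹ ^ i * v ^ i) *
            ((-1 : ℂ) ^ i * (-1) ^ i) := by rw [h5, e4, ← hk, h6, h7]; ring
        _ = _ := by rw [h3]; ring

def PairOK (a c : ℕ) (q : ℂ) : Prop :=
  ∃ τ σ : ℝ → ℂ → ℝ, Trap (fun t v => G a (c + 1) (t * q) v) τ ∧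
    Trap (fun t v => G (a + 1) c (t * q) v) σ ∧
    ∀ v w : ℂ, v ≠ 0 → w ≠ 0 → τ 1 v ≤ 0 → σ 1 w ≤ 0 →
      (a : ℝ) * c * ‖v‖ ≤ (a + 1) * (c + 1) * ‖w‖

theorem PairOK.symm {a c : ℕ} {q : ℂ} (h : PairOK a c q) : PairOK c a q := by
  obtain ⟨τ, σ, h1, h2, h3⟩ := h
  have key : ∀ (x y : ℕ) (q v : ℂ), v ≠ 0 → G x y q v = 0 → G y x q v⁻¹ = 0 := by
    intro x y q v hv h
    rw [G_symm _ _ _ _ hv] at h
    exact (mul_eq_zero.1 h).resolve_left (neg_ne_zero.2 hv)
  refine ⟨fun t v => σ t v⁻¹, fun t v => τ t v⁻¹, h2.inv fun t v hv h => key _ _ _ _ hv h,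
    h1.inv fun t v hv h => key _ _ _ _ hv h, fun v w hv hw e1 e2 => ?_⟩
  have := h3 w⁻¹ v⁻¹ (inv_ne_zero hw) (inv_ne_zero hv) e2 e1
  rw [norm_inv, norm_inv] at this
  have hv' := norm_pos_iff.2 hv
  have hw' := norm_pos_iff.2 hw
  have h4 := mul_le_mul_of_nonneg_right this (mul_pos hv' hw').le
  have e3 : (a : ℝ) * c * ‖w‖⁻¹ * (‖v‖ * ‖w‖) = c * a * ‖v‖ := by field_simp
  have e4 : ((a : ℝ) + 1) * (c + 1) * ‖v‖⁻¹ * (‖v‖ * ‖w‖) = (c + 1) * (a + 1) * ‖w‖ := by
    field_simp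
  rwa [e3, e4] at h4

theorem G_root {a b : ℕ} (hab : 0 < a + b) {q : ℂ} {τ : ℝ → ℂ → ℝ}
    (h : Trap (fun t v => G a b (t * q) v) τ) : ∃ v, v ≠ 0 ∧ τ 1 v ≤ 0 ∧ G a b q v = 0 := by
  have := h.root ?_ ?_ ?_
  · simpa using this
  · unfold G term
    refine continuousOn_finsetSum _ fun i _ => ?_
    have : ContinuousOn (fun p : ℝ × ℂ => p.2⁻¹) (Set.Icc 0 1 ×ˢ {v | v ≠ 0}) :=
      continuousOn_snd.inv₀ fun p hp => hp.2
    fun_prop
  · intro t
    unfold G term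
    refine DifferentiableOn.fun_sum fun i _ => ?_
    have : DifferentiableOn ℂ (fun v : ℂ => v⁻¹) {v | v ≠ 0} :=
      differentiableOn_id.inv fun p hp => hp
    fun_prop
  · obtain ⟨n, hn⟩ : ∃ n, a + b = n + 1 := ⟨a + b - 1, by omega⟩
    simp only [G]
    rw [hn, sum_range_succ', sum_eq_zero]
    · simp [term, uu_one]
    · intro i _
      have : (i + 1 + 1).choose 2 ≠ 0 := (Nat.choose_pos (by omega)).ne'
      simp [term, this]

theorem chain_result (N : ℕ) (q : ℂ) (hq : ‖q‖ < 1) (P : Polynomial ℂ) (hP : P ≠ 0)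
    (hd : P.natDegree ≤ N) (z : ℕ → ℂ) (hz : ∀ j < N, P.IsRoot (z j)) (h0 : ∀ j < N, z j ≠ 0)
    (hc : ∀ j, j + 1 < N → ‖z j‖ ≤ ‖q‖ * ‖z (j + 1)‖) :
    P.roots.Nodup ∧ ∀ x w : ℂ, P.IsRoot x → P.IsRoot w → x ≠ w → ‖x‖ ≤ ‖w‖ →
      ‖x‖ ≤ ‖q‖ * ‖w‖ := by
  classical
  have h1 : ∀ j, j + 1 < N → ‖z j‖ < ‖z (j + 1)‖ := fun j hj =>
    (hc j hj).trans_lt (mul_lt_of_lt_one_left (norm_pos_iff.2 (h0 _ hj)) hq)
  have h2 : ∀ i d, i + d < N → ‖z i‖ ≤ ‖z (i + d)‖ := by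
    intro i d
    induction d with
    | zero => intro _; exact le_rfl
    | succ d ih => intro h; exact (ih (by omega)).trans (h1 (i + d) h).le
  have h3 : ∀ i j, i < j → j < N → ‖z i‖ ≤ ‖q‖ * ‖z j‖ ∧ ‖z i‖ < ‖z j‖ := by
    intro i j hij hj
    have := h2 (i + 1) (j - (i + 1)) (by omega)
    rw [show i + 1 + (j - (i + 1)) = j by omega] at this
    exact ⟨(hc i (by omega)).trans (mul_le_mul_of_nonneg_left this (norm_nonneg q)),
      (h1 i (by omega)).trans_le this⟩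
  have hinj : Set.InjOn z (range N) := by
    intro i hi j hj h
    have hi' : i < N := by simpa using hi
    have hj' : j < N := by simpa using hj
    rcases lt_trichotomy i j with h4 | h4 | h4
    · have := (h3 i j h4 hj').2; rw [h] at this; exact absurd this (lt_irrefl _)
    · exact h4
    · have := (h3 j i h4 hi').2; rw [h] at this; exact absurd this (lt_irrefl _)
  have hsub : (image z (range N)).val ≤ P.roots := by
    rw [Finset.val_le_iff_val_subset]
    intro x hx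
    obtain ⟨j, hj, rfl⟩ := mem_image.1 (show x ∈ image z (range N) from hx)
    exact (Polynomial.mem_roots hP).2 (hz j (mem_range.1 hj))
  have heq : (image z (range N)).val = P.roots := by
    refine Multiset.eq_of_le_of_card_le hsub ((Polynomial.card_roots' P).trans (hd.trans ?_))
    rw [← Finset.card_def, card_image_of_injOn hinj, card_range]
  refine ⟨heq ▸ (image z (range N)).nodup, fun x w hx hw hne hle => ?_⟩
  have hx' : x ∈ image z (range N) := by
    rw [← Finset.mem_val, heq]; exact (Polynomial.mem_roots hP).2 hx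
  have hw' : w ∈ image z (range N) := by
    rw [← Finset.mem_val, heq]; exact (Polynomial.mem_roots hP).2 hw
  obtain ⟨i, hi, rfl⟩ := mem_image.1 hx'
  obtain ⟨j, hj, rfl⟩ := mem_image.1 hw'
  rcases lt_trichotomy i j with h4 | h4 | h4
  · exact (h3 i j h4 (mem_range.1 hj)).1
  · exact absurd (congrArg z h4) hne
  · exact absurd (h3 j i h4 (mem_range.1 hi)).2 (not_lt.2 hle)

/-- the chain of roots from trapping regions -/
theorem chain_of_pairs (N : ℕ) (hN : 2 ≤ N) (q : ℂ) (hq : q ≠ 0)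
    (h : ∀ a c, 1 ≤ a → 1 ≤ c → a + c = N → PairOK a c q) :
    ∃ z : ℕ → ℂ, (∀ j < N, ∑ n ∈ range (N + 1), (N.choose n : ℂ) * q ^ (n.choose 2) * z j ^ n = 0)
      ∧ ∀ j, j + 1 < N → ‖z j‖ ≤ ‖q‖ * ‖z (j + 1)‖ := by
  have h' : ∀ j : ℕ, ∃ τ σ : ℝ → ℂ → ℝ, j + 1 < N →
      Trap (fun t v => G (j + 1) (N - j) (t * q) v) τ ∧
      Trap (fun t v => G (j + 1 + 1) (N - (j + 1)) (t * q) v) σ ∧
      ∀ v w : ℂ, v ≠ 0 → w ≠ 0 → τ 1 v ≤ 0 → σ 1 w ≤ 0 →
        ((j + 1 : ℕ) : ℝ) * (N - (j + 1) : ℕ) * ‖v‖ ≤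
          ((j + 1 : ℕ) + 1) * ((N - (j + 1) : ℕ) + 1) * ‖w‖ := by
    intro j
    by_cases hj : j + 1 < N
    · obtain ⟨τ, σ, h1, h2, h3⟩ := h (j + 1) (N - (j + 1)) (by omega) (by omega) (by omega)
      rw [show N - (j + 1) + 1 = N - j by omega] at h1
      exact ⟨τ, σ, fun _ => ⟨h1, h2, h3⟩⟩
    · exact ⟨fun _ _ => 0, fun _ _ => 0, fun h => absurd h hj⟩
  choose τ σ hτ using h'
  have hv : ∀ j : ℕ, ∃ v : ℂ, j < N → v ≠ 0 ∧ G (j + 1) (N - j) q v = 0 ∧
      (j + 1 < N → τ j 1 v ≤ 0) ∧ (∀ i, i + 1 = j → σ i 1 v ≤ 0) := by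
    intro j
    by_cases hj : j < N
    · rcases j with _ | i
      · obtain ⟨v, h1, h2, h3⟩ := G_root (by omega) (hτ 0 (by omega)).1
        exact ⟨v, fun _ => ⟨h1, h3, fun _ => h2, fun i hi => by omega⟩⟩
      · by_cases hi : i + 1 + 1 < N
        · obtain ⟨v, h1, h2, h3⟩ := G_root (by omega) ((hτ (i + 1) hi).1.max (hτ i hj).2.1)
          refine ⟨v, fun _ => ⟨h1, h3, fun _ => (le_max_left _ _).trans h2, fun k hk => ?_⟩⟩
          obtain rfl : k = i := by omega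
          exact (le_max_right _ _).trans h2
        · obtain ⟨v, h1, h2, h3⟩ := G_root (by omega) (hτ i hj).2.1
          refine ⟨v, fun _ => ⟨h1, h3, fun h => absurd h hi, fun k hk => ?_⟩⟩
          obtain rfl : k = i := by omega
          exact h2
    · exact ⟨0, fun h => absurd h hj⟩
  choose v hv using hv
  refine ⟨fun j => -(((j + 1 : ℕ) : ℂ) / ((N - j : ℕ) : ℂ)) * v j / q ^ j, fun j hj => ?_,
    fun j hj => ?_⟩
  · obtain ⟨b, rfl⟩ : ∃ b, N = j + b + 1 := ⟨N - j - 1, by omega⟩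
    obtain ⟨h1, h2, -⟩ := hv j hj
    beta_reduce
    rw [show j + b + 1 - j = b + 1 by omega] at h2 ⊢
    rw [eval_eq j b q (v j) _ h1 (div_mul_cancel₀ _ (pow_ne_zero _ hq)), h2, mul_zero]
  · obtain ⟨h1, -, h2, -⟩ := hv j (by omega)
    obtain ⟨h3, -, -, h4⟩ := hv (j + 1) hj
    have h5 := (hτ j hj).2.2 _ _ h1 h3 (h2 hj) (h4 j rfl)
    obtain ⟨c, rfl⟩ : ∃ c, N = j + 1 + (c + 1) := ⟨N - j - 2, by omega⟩
    beta_reduce
    rw [show j + 1 + (c + 1) - (j + 1) = c + 1 by omega] at h5 ⊢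
    rw [show j + 1 + (c + 1) - j = c + 1 + 1 by omega]
    simp only [norm_div, norm_mul, norm_neg, norm_pow, Complex.norm_natCast]
    have hq' := norm_pos_iff.2 hq
    push_cast at h5 ⊢
    have e : ‖q‖ * (((j : ℝ) + 1 + 1) / (c + 1) * ‖v (j + 1)‖ / ‖q‖ ^ (j + 1)) =
        ((j : ℝ) + 1 + 1) / (c + 1) * ‖v (j + 1)‖ / ‖q‖ ^ j := by rw [pow_succ]; field_simp
    rw [e]
    refine div_le_div_of_nonneg_right ?_ (by positivity)
    rw [div_mul_eq_mul_div, div_mul_eq_mul_div, div_le_div_iff₀ (by positivity) (by positivity)]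
    linarith

theorem result_of_chain (N : ℕ) (hN : 0 < N) (q : ℂ) (hq : ‖q‖ < 1)
    (h : 2 ≤ N → q ≠ 0 → ∃ z : ℕ → ℂ,
      (∀ j < N, ∑ n ∈ range (N + 1), (N.choose n : ℂ) * q ^ (n.choose 2) * z j ^ n = 0)
      ∧ ∀ j, j + 1 < N → ‖z j‖ ≤ ‖q‖ * ‖z (j + 1)‖) (P : Polynomial ℂ)
    (hP : P = ∑ n ∈ range (N + 1),
      Polynomial.C ((N.choose n : ℂ) * q ^ (n * (n - 1) / 2)) * Polynomial.X ^ n) :
    P.roots.Nodup ∧ ∀ x w : ℂ, P.IsRoot x → P.IsRoot w → x ≠ w → ‖x‖ ≤ ‖w‖ →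
      ‖x‖ ≤ ‖q‖ * ‖w‖ := by
  have hev : ∀ z, P.eval z = ∑ n ∈ range (N + 1), (N.choose n : ℂ) * q ^ (n.choose 2) * z ^ n := by
    intro z
    rw [hP, Polynomial.eval_finsetSum]
    refine sum_congr rfl fun n _ => ?_
    rw [Nat.choose_two_right]; simp
  have hev0 : P.eval 0 = 1 := by
    rw [hev, sum_range_succ']; simp
  have hP0 : P ≠ 0 := by
    intro h; rw [h] at hev0; simp at hev0
  have hnz : ∀ z, P.IsRoot z → z ≠ 0 := by
    intro z hz h
    rw [h, Polynomial.IsRoot, hev0] at hz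
    exact one_ne_zero hz
  have hco : ∀ k, P.coeff k = if k < N + 1 then (N.choose k : ℂ) * q ^ (k.choose 2) else 0 := by
    intro k
    rw [hP, Polynomial.finsetSum_coeff]
    simp only [Polynomial.coeff_C_mul_X_pow, sum_ite_eq, mem_range, Nat.choose_two_right]
  by_cases hc : 2 ≤ N ∧ q ≠ 0
  · obtain ⟨z, h1, h2⟩ := h hc.1 hc.2
    have h3 : ∀ j < N, P.IsRoot (z j) := fun j hj => by rw [Polynomial.IsRoot, hev, h1 j hj]
    refine chain_result N q hq P hP0 ?_ z h3 (fun j hj => hnz _ (h3 j hj)) h2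
    rw [Polynomial.natDegree_le_iff_coeff_eq_zero]
    intro k hk
    rw [hco, if_neg (by omega)]
  · have hz : ∀ k, 2 ≤ k → (N.choose k : ℂ) * q ^ (k.choose 2) = 0 := by
      intro k hk
      by_cases h2 : 2 ≤ N
      · have : q = 0 := by by_contra h; exact hc ⟨h2, h⟩
        rw [this, zero_pow (Nat.choose_pos hk).ne', mul_zero]
      · rw [Nat.choose_eq_zero_of_lt (by omega)]; simp
    have h3 : P.IsRoot (-(N : ℂ)⁻¹) := by
      obtain ⟨n, rfl⟩ : ∃ n, N = n + 1 := ⟨N - 1, by omega⟩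
      have : ((n + 1 : ℕ) : ℂ) ≠ 0 := by exact_mod_cast Nat.succ_ne_zero n
      rw [Polynomial.IsRoot, hev, sum_range_succ', sum_range_succ', sum_eq_zero]
      · simp only [zero_add, Nat.choose_one_right, Nat.choose_zero_right]
        field_simp
        simp
      · intro i _
        rw [hz _ (by omega), zero_mul]
    refine chain_result 1 q hq P hP0 ?_ (fun _ => -(N : ℂ)⁻¹) (fun _ _ => h3)
      (fun j hj => hnz _ h3) (fun j hj => by omega)
    rw [Polynomial.natDegree_le_iff_coeff_eq_zero]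
    intro k hk
    rw [hco, hz k hk]; simp

end Pool.Agent.MP_97ada9_an
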