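import Pool.Agent.MP_97ada9_an.Poly

/-! The case of a real parameter: interlacing induction. -/

set_option autoImplicit false

namespace Pool.Agent.MP_97ada9_an

open Finset

noncomputable def pr (q : ℝ) (N : ℕ) (z : ℝ) : ℝ :=
  ∑ n ∈ range (N + 1), (N.choose n : ℝ) * q ^ (n.choose 2) * z ^ n

theorem pr_succ (q : ℝ) (N : ℕ) (z : ℝ) : pr q (N + 1) z = pr q N z + z * pr q N (q * z) := by
  unfold pr
  rw [sum_range_succ' _ (N + 1), mul_sum]
  have e : ∑ n ∈ range (N + 1), (N.choose n : ℝ) * q ^ (n.choose 2) * z ^ n =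
      ∑ n ∈ range (N + 1), (N.choose (n + 1) : ℝ) * q ^ ((n + 1).choose 2) * z ^ (n + 1) + 1 := by
    rw [sum_range_succ (fun n => (N.choose (n + 1) : ℝ) * q ^ ((n + 1).choose 2) * z ^ (n + 1)),
      sum_range_succ']
    simp
  rw [e, add_right_comm, ← sum_add_distrib]
  congr 1
  · refine sum_congr rfl fun n _ => ?_
    rw [Nat.choose_succ_succ' N n, Nat.choose_succ_succ' n 1, Nat.choose_one_right]
    push_cast; ring
  · simp

theorem ivt_mul {f : ℝ → ℝ} (hf : Continuous f) {a b : ℝ} (hab : a < b) (h : f a * f b < 0) :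
    ∃ c, a < c ∧ c < b ∧ f c = 0 := by
  rcases mul_neg_iff.1 h with h | h
  · obtain ⟨c, hc, h0⟩ := intermediate_value_Ioo' hab.le hf.continuousOn ⟨h.2, h.1⟩
    exact ⟨c, hc.1, hc.2, h0⟩
  · obtain ⟨c, hc, h0⟩ := intermediate_value_Ioo hab.le hf.continuousOn ⟨h.1, h.2⟩
    exact ⟨c, hc.1, hc.2, h0⟩

theorem sign_aux {a b : ℝ} (ha : 1 < |a|) (hb : 1 < |b|) : 0 < (1 - a) * (1 - b) * (a * b) := by
  have h1 : (1 - a) * a < 0 := by
    rcases lt_abs.1 ha with h | h <;> nlinarith
  have h2 : (1 - b) * b < 0 := by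
    rcases lt_abs.1 hb with h | h <;> nlinarith
  have := mul_pos_of_neg_of_neg h1 h2
  linarith

theorem sign_prod {q : ℝ} (hq0 : q ≠ 0) (hq : |q| < 1) (N j : ℕ) (hj : j ≤ N) (t : ℕ → ℝ)
    (ht : ∀ k < N, 0 < t k) {lo hi : ℝ} (h0 : 0 ≤ lo) (h1 : 0 < hi)
    (h2 : ∀ k < j, t k ≤ lo ∧ t k < hi) (h3 : ∀ k, j ≤ k → k < N → lo < t k ∧ hi ≤ t k) :
    0 < (∏ k ∈ range N, (1 + -lo / q ^ j * q ^ k / t k)) *
      (hi / q ^ j * ∏ k ∈ range N, (1 + q * (-hi / q ^ j) * q ^ k / t k)) := by
  have hqa := abs_pos.2 hq0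
  have e1 : (q ^ j)⁻¹ = ∏ k ∈ range N, (if k < j then q⁻¹ else 1) := by
    rw [prod_ite, prod_const_one, mul_one, prod_const, inv_pow]
    congr 2
    rw [show filter (fun k => k < j) (range N) = range j by ext k; simp; omega, card_range]
  rw [div_eq_mul_inv hi, mul_assoc hi, mul_left_comm]
  refine mul_pos h1 ?_
  conv_rhs => enter [2, 1]; rw [e1]
  rw [← prod_mul_distrib, ← prod_mul_distrib]
  refine prod_pos fun k hk => ?_
  have hk' := mem_range.1 hk
  have htk := ht k hk'
  split_ifs with h
  · obtain ⟨d, rfl⟩ : ∃ d, j = k + (d + 1) := ⟨j - k - 1, by omega⟩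
    obtain ⟨a1, a2⟩ := h2 k h
    have b1 : 1 + -lo / q ^ (k + (d + 1)) * q ^ k / t k = 1 - lo / t k / q ^ (d + 1) := by
      field_simp; ring
    have b2 : 1 + q * (-hi / q ^ (k + (d + 1))) * q ^ k / t k = 1 - hi / t k / q ^ d := by
      field_simp; ring
    have c1 : 1 ≤ lo / t k := (one_le_div htk).2 a1
    have c2 : 1 < hi / t k := (one_lt_div htk).2 a2
    rw [b1, b2]
    generalize lo / t k = x at *
    generalize hi / t k = y at *
    have := sign_aux (a := x / q ^ (d + 1)) (b := y / q ^ d) (by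
      rw [abs_div, abs_pow, abs_of_pos (by linarith), one_lt_div (by positivity)]
      exact (pow_lt_one₀ hqa.le hq (by omega)).trans_le c1) (by
      rw [abs_div, abs_pow, abs_of_pos (by linarith), one_lt_div (by positivity)]
      exact (pow_le_one₀ hqa.le hq.le).trans_lt c2)
    have e : (1 - x / q ^ (d + 1)) * (1 - y / q ^ d) * (x / q ^ (d + 1) * (y / q ^ d)) =
        ((1 - x / q ^ (d + 1)) * (q⁻¹ * (1 - y / q ^ d))) * (x * y / (q ^ d) ^ 2) := by
      field_simp; ring
    rw [e] at this
    have hx : 0 < x := by linarith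
    have hy : 0 < y := by linarith
    exact pos_of_mul_pos_left this (by positivity)
  · obtain ⟨d, rfl⟩ : ∃ d, k = j + d := ⟨k - j, by omega⟩
    obtain ⟨a1, a2⟩ := h3 (j + d) (by omega) hk'
    have b1 : 1 + -lo / q ^ j * q ^ (j + d) / t (j + d) = 1 - lo / t (j + d) * q ^ d := by
      field_simp; ring
    have b2 : 1 + q * (-hi / q ^ j) * q ^ (j + d) / t (j + d) = 1 - hi / t (j + d) * q ^ (d + 1) := by
      field_simp; ring
    have c1 : lo / t (j + d) < 1 := (div_lt_one htk).2 a1
    have c2 : hi / t (j + d) ≤ 1 := (div_le_one htk).2 a2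
    have c3 : 0 ≤ lo / t (j + d) := by positivity
    have c4 : 0 ≤ hi / t (j + d) := by positivity
    have d1 : q ^ d ≤ 1 := (le_abs_self _).trans (by rw [abs_pow]; exact pow_le_one₀ hqa.le hq.le)
    have d2 : |q ^ (d + 1)| < 1 := by rw [abs_pow]; exact pow_lt_one₀ hqa.le hq (by omega)
    have d3 := abs_lt.1 d2
    rw [b1, b2, one_mul]
    refine mul_pos ?_ ?_ <;> nlinarith

theorem last_dom {q : ℝ} (hq0 : q ≠ 0) (hq : |q| < 1) (N : ℕ) (t : ℕ → ℝ)
    (ht : ∀ k < N, 0 < t k) {T : ℝ} (h1 : 2 ^ N < T) (h2 : ∀ k < N, 3 * t k ≤ T) :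
    |∏ k ∈ range N, (1 + -T / q ^ N * q ^ k / t k)| <
      |T / q ^ N * ∏ k ∈ range N, (1 + q * (-T / q ^ N) * q ^ k / t k)| := by
  have hqa := abs_pos.2 hq0
  have hT : 0 < T := lt_trans (by positivity) h1
  have key : ∀ k ∈ range N, 2 ≤ |1 + q * (-T / q ^ N) * q ^ k / t k| ∧
      |1 + -T / q ^ N * q ^ k / t k| ≤ 2 / |q| * |1 + q * (-T / q ^ N) * q ^ k / t k| := by
    intro k hk
    have hk' := mem_range.1 hk
    have htk := ht k hk'
    obtain ⟨d, hd⟩ : ∃ d, N = k + (d + 1) := ⟨N - k - 1, by omega⟩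
    have b1 : -T / q ^ N * q ^ k / t k = -(T / t k / q ^ d) / q := by
      rw [hd]; field_simp; ring
    have b2 : q * (-T / q ^ N) * q ^ k / t k = -(T / t k / q ^ d) := by
      rw [hd]; field_simp; ring
    have c1 : 3 ≤ |T / t k / q ^ d| := by
      rw [abs_div, abs_pow, abs_of_pos (by positivity), le_div_iff₀ (by positivity),
        le_div_iff₀ htk]
      have := pow_le_one₀ (n := d) hqa.le hq.le
      have := h2 k hk'
      nlinarith
    rw [b1, b2]
    generalize T / t k / q ^ d = y at *
    have c2 : |y| - 1 ≤ |1 + -y| := by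
      have := abs_sub_abs_le_abs_sub y 1
      rw [abs_one, abs_sub_comm] at this
      rwa [← sub_eq_add_neg]
    refine ⟨by linarith, (abs_add_le _ _).trans ?_⟩
    rw [abs_one, abs_div, abs_neg, div_mul_eq_mul_div, le_div_iff₀ hqa, add_mul,
      div_mul_cancel₀ _ hqa.ne']
    linarith
  rw [abs_mul, abs_prod, abs_prod]
  refine (prod_le_prod (fun _ _ => abs_nonneg _) fun k hk => (key k hk).2).trans_lt ?_
  rw [prod_mul_distrib, prod_const, card_range]
  refine mul_lt_mul_of_pos_right ?_ (prod_pos fun k hk => by linarith [(key k hk).1])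
  rw [abs_div, abs_pow, abs_of_pos hT, div_pow]
  gcongr

theorem real_roots {q : ℝ} (hq0 : q ≠ 0) (hq : |q| < 1) (N : ℕ) :
    ∃ t : ℕ → ℝ, (∀ k < N, 0 < t k) ∧ (∀ i k, i < k → k < N → t i < t k) ∧
      ∀ z, pr q N z = ∏ k ∈ range N, (1 + z * q ^ k / t k) := by
  classical
  induction N with
  | zero => exact ⟨fun _ => 1, by simp, by simp, fun z => by simp [pr]⟩
  | succ N ih =>
    obtain ⟨t, h1, h2, h3⟩ := ih
    have hqa := abs_pos.2 hq0
    have h2' : ∀ i k, i ≤ k → k < N → t i ≤ t k := fun i k h hk =>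
      h.eq_or_lt.elim (fun h => by rw [h]) fun h => (h2 i k h hk).le
    set T : ℝ := 2 ^ N + 1 + 3 * ∑ k ∈ range N, t k with hT
    have hs : 0 ≤ ∑ k ∈ range N, t k := sum_nonneg fun k hk => (h1 k (mem_range.1 hk)).le
    have hT1 : 2 ^ N < T := by linarith
    have hT2 : ∀ k < N, 3 * t k < T := by
      intro k hk
      have := single_le_sum (f := t) (fun k hk => (h1 k (mem_range.1 hk)).le) (mem_range.2 hk)
      have : (0 : ℝ) < 2 ^ N := by positivity
      linarith
    set lo : ℕ → ℝ := fun j => if j = 0 then 0 else t (j - 1) with hlo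
    set hi : ℕ → ℝ := fun j => if j < N then t j else T with hhi
    have hroot : ∀ j, ∃ c, j ≤ N → lo j < c ∧ c < hi j ∧ pr q (N + 1) (-c / q ^ j) = 0 := by
      intro j
      by_cases hj : j ≤ N
      swap
      · exact ⟨0, fun h => absurd h hj⟩
      have a0 : 0 ≤ lo j := by
        simp only [hlo]; split_ifs with h
        · exact le_rfl
        · exact (h1 _ (by omega)).le
      have a1 : 0 < hi j := by
        simp only [hhi]; split_ifs with h
        · exact h1 _ h
        · exact lt_trans (by positivity) hT1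
      have a2 : ∀ k < j, t k ≤ lo j ∧ t k < hi j := by
        intro k hk
        simp only [hlo, hhi]
        rw [if_neg (by omega)]
        refine ⟨h2' _ _ (by omega) (by omega), ?_⟩
        split_ifs with h
        · exact h2 _ _ hk h
        · have := hT2 k (by omega); have := h1 k (by omega); linarith
      have a3 : ∀ k, j ≤ k → k < N → lo j < t k ∧ hi j ≤ t k := by
        intro k hk hk'
        simp only [hlo, hhi]
        rw [if_pos (by omega : j < N)]
        refine ⟨?_, h2' _ _ hk hk'⟩
        split_ifs with h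
        · exact h1 _ hk'
        · exact h2 _ _ (by omega) hk'
      have a4 : lo j < hi j := by
        by_cases h : j = 0
        · simp only [hlo]; rw [if_pos h]; exact a1
        · simp only [hlo]; rw [if_neg h]; exact (a2 (j - 1) (by omega)).2
      have b0 := sign_prod hq0 hq N j hj t h1 a0 a1 a2 a3
      have b1 : pr q (N + 1) (-lo j / q ^ j) = ∏ k ∈ range N, (1 + -lo j / q ^ j * q ^ k / t k) := by
        rw [pr_succ, h3, h3, add_eq_left]
        rcases j with _ | i
        · simp [hlo]
        · refine mul_eq_zero_of_right _ (prod_eq_zero (mem_range.2 (by omega : i < N)) ?_)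
          have := (h1 i (by omega)).ne'
          simp only [hlo, Nat.add_sub_cancel, if_neg (Nat.succ_ne_zero i)]
          field_simp; ring
      have b2 : |∏ k ∈ range N, (1 + -hi j / q ^ j * q ^ k / t k)| <
          |hi j / q ^ j * ∏ k ∈ range N, (1 + q * (-hi j / q ^ j) * q ^ k / t k)| := by
        by_cases h : j < N
        · rw [prod_eq_zero (mem_range.2 h), abs_zero]
          · exact abs_pos.2 (right_ne_zero_of_mul b0.ne')
          · have := (h1 j h).ne'
            simp only [hhi, if_pos h]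
            field_simp; ring
        · obtain rfl : j = N := by omega
          simp only [hhi, if_neg h]
          exact last_dom hq0 hq j t h1 hT1 fun k hk => (hT2 k hk).le
      obtain ⟨c, hc⟩ := ivt_mul (f := fun c => pr q (N + 1) (-c / q ^ j))
        (by unfold pr; fun_prop) a4 (by
          rw [b1, pr_succ, h3, h3]
          generalize (∏ k ∈ range N, (1 + -lo j / q ^ j * q ^ k / t k)) = A at *
          generalize (∏ k ∈ range N, (1 + -hi j / q ^ j * q ^ k / t k)) = B at *
          generalize (∏ k ∈ range N, (1 + q * (-hi j / q ^ j) * q ^ k / t k)) = C at *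
          have hA : 0 < |A| := abs_pos.2 (left_ne_zero_of_mul b0.ne')
          have c1 := mul_lt_mul_of_pos_left b2 hA
          rw [← abs_mul, ← abs_mul, abs_of_pos b0] at c1
          have c2 := le_abs_self (A * B)
          have : A * (B + -hi j / q ^ j * C) = A * B - A * (hi j / q ^ j * C) := by ring
          linarith)
      exact ⟨c, fun _ => hc⟩
    choose c hc using hroot
    have c1 : ∀ i, i < N → c i < c (i + 1) := by
      intro i hi'
      have a := (hc i hi'.le).2.1
      have b := (hc (i + 1) hi').1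
      simp only [hlo, hhi, if_pos hi', if_neg (Nat.succ_ne_zero i), Nat.add_sub_cancel] at a b
      linarith
    have c2 : ∀ i k, i < k → k < N + 1 → c i < c k := by
      intro i k hik hk
      induction k, hik using Nat.le_induction with
      | base => exact c1 i (by omega)
      | succ k _ ih => exact (ih (by omega)).trans (c1 k (by omega))
    have c3 : ∀ k < N + 1, 0 < c k := by
      have : 0 < c 0 := by simpa [hlo] using (hc 0 (by omega)).1
      intro k hk
      rcases k with _ | k
      · exact this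
      · exact this.trans (c2 0 _ (by omega) hk)
    refine ⟨c, c3, c2, fun z => ?_⟩
    have c4 : ∀ i k, i < k → k < N + 1 → |-c i / q ^ i| < |-c k / q ^ k| := by
      intro i k hik hk
      have p1 := c3 i (by omega)
      have p2 := c3 k hk
      rw [abs_div, abs_div, abs_neg, abs_neg, abs_pow, abs_pow, abs_of_pos p1, abs_of_pos p2]
      exact div_lt_div₀ (c2 i k hik hk) (pow_le_pow_of_le_one hqa.le hq.le hik.le) p2.le
        (by positivity)
    have hinj : Set.InjOn (fun i => -c i / q ^ i) (range (N + 1)) := by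
      intro i hi' j hj h
      have hi'' : i < N + 1 := by simpa using hi'
      have hj' : j < N + 1 := by simpa using hj
      have h' : -c i / q ^ i = -c j / q ^ j := h
      rcases lt_trichotomy i j with h4 | h4 | h4
      · have := c4 i j h4 hj'; rw [h'] at this; exact absurd this (lt_irrefl _)
      · exact h4
      · have := c4 j i h4 hi''; rw [h'] at this; exact absurd this (lt_irrefl _)
    have hnot : (0 : ℝ) ∉ image (fun i => -c i / q ^ i) (range (N + 1)) := by
      intro h
      obtain ⟨i, hi', h⟩ := mem_image.1 h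
      exact div_ne_zero (neg_ne_zero.2 (c3 i (mem_range.1 hi')).ne') (pow_ne_zero _ hq0) h
    set A : Polynomial ℝ := ∑ n ∈ range (N + 1 + 1),
      Polynomial.C (((N + 1).choose n : ℝ) * q ^ (n.choose 2)) * Polynomial.X ^ n with hA
    set B : Polynomial ℝ := ∏ k ∈ range (N + 1),
      (Polynomial.C (q ^ k / c k) * Polynomial.X + Polynomial.C 1) with hB
    have eA : ∀ z, A.eval z = pr q (N + 1) z := by
      intro z; simp [hA, pr, Polynomial.eval_finsetSum]
    have eB : ∀ z, B.eval z = ∏ k ∈ range (N + 1), (1 + z * q ^ k / c k) := by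
      intro z
      rw [hB, Polynomial.eval_prod]
      exact prod_congr rfl fun k _ => by simp; ring
    have dA : A.natDegree ≤ N + 1 :=
      Polynomial.natDegree_sum_le_of_forall_le _ _ fun n hn =>
        (Polynomial.natDegree_C_mul_X_pow_le _ _).trans (by have := mem_range.1 hn; omega)
    have dB : B.natDegree ≤ N + 1 := by
      refine (Polynomial.natDegree_prod_le _ _).trans ?_
      refine (sum_le_card_nsmul _ _ 1 fun k _ => Polynomial.natDegree_linear_le).trans ?_
      simp
    have hAB : A = B := by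
      refine Polynomial.eq_of_natDegree_lt_card_of_eval_eq' A B
        (insert 0 (image (fun i => -c i / q ^ i) (range (N + 1)))) (fun z hz => ?_) ?_
      · rw [eA, eB]
        rcases mem_insert.1 hz with rfl | hz
        · simp [pr, sum_range_succ']
        · obtain ⟨i, hi', rfl⟩ := mem_image.1 hz
          rw [(hc i (by have := mem_range.1 hi'; omega)).2.2, prod_eq_zero hi']
          have := (c3 i (mem_range.1 hi')).ne'
          field_simp; ring
      · rw [card_insert_of_notMem hnot, card_image_of_injOn hinj, card_range]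
        omega
    rw [← eA, ← eB, hAB]

theorem chain_real (N : ℕ) (q : ℂ) (hq0 : q ≠ 0) (him : q.im = 0) (hq : ‖q‖ < 1) :
    ∃ z : ℕ → ℂ, (∀ j < N, ∑ n ∈ range (N + 1), (N.choose n : ℂ) * q ^ (n.choose 2) * z j ^ n = 0)
      ∧ ∀ j, j + 1 < N → ‖z j‖ ≤ ‖q‖ * ‖z (j + 1)‖ := by
  obtain ⟨r, rfl⟩ : ∃ r : ℝ, q = r := ⟨q.re, Complex.ext (by simp) (by simp [him])⟩
  have hr0 : r ≠ 0 := by exact_mod_cast hq0
  rw [Complex.norm_real, Real.norm_eq_abs] at hq
  obtain ⟨t, h1, h2, h3⟩ := real_roots hr0 hq N
  refine ⟨fun j => ((-t j / r ^ j : ℝ) : ℂ), fun j hj => ?_, fun j hj => ?_⟩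
  · have := h3 (-t j / r ^ j)
    rw [prod_eq_zero (mem_range.2 hj) (by have := (h1 j hj).ne'; field_simp; ring), pr] at this
    beta_reduce
    exact_mod_cast this
  · have p1 := h1 j (by omega)
    have p2 := h1 (j + 1) hj
    have hqa := abs_pos.2 hr0
    simp only [Complex.norm_real, Real.norm_eq_abs, abs_div, abs_neg, abs_pow, abs_of_pos p1,
      abs_of_pos p2]
    have e : |r| * (t (j + 1) / |r| ^ (j + 1)) = t (j + 1) / |r| ^ j := by
      rw [pow_succ]; field_simp
    rw [e]
    exact div_le_div_of_nonneg_right (h2 j (j + 1) (by omega) hj).le (by positivity)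

end Pool.Agent.MP_97ada9_an
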