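import Pool.Agent.MP_97ada9_an.Real
import Pool.Agent.MP_97ada9_an.Branch

/-! Reduction of the separation statement to parameters on the unit circle. -/

set_option autoImplicit false

namespace Pool.Agent.MP_97ada9_an

open Finset Filter Topology

noncomputable def pc (q : ℂ) (N : ℕ) (z : ℂ) : ℂ :=
  ∑ n ∈ range (N + 1), (N.choose n : ℂ) * q ^ (n.choose 2) * z ^ n

noncomputable def pp (q : ℂ) (N : ℕ) : Polynomial ℂ :=
  ∑ n ∈ range (N + 1), Polynomial.C ((N.choose n : ℂ) * q ^ (n * (n - 1) / 2)) * Polynomial.X ^ n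

theorem pp_eval (q : ℂ) (N : ℕ) (z : ℂ) : (pp q N).eval z = pc q N z := by
  rw [pp, pc, Polynomial.eval_finsetSum]
  refine sum_congr rfl fun n _ => ?_
  rw [Nat.choose_two_right]; simp

theorem pc_zero (q : ℂ) (N : ℕ) : pc q N 0 = 1 := by
  rw [pc, sum_range_succ']; simp

theorem pp_ne (q : ℂ) (N : ℕ) : pp q N ≠ 0 := fun h => by
  have := pp_eval q N 0
  rw [h, pc_zero] at this; simp at this

theorem pc_ne {q z : ℂ} {N : ℕ} (h : pc q N z = 0) : z ≠ 0 := fun e => by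
  rw [e, pc_zero] at h; exact one_ne_zero h

theorem pc_one (N : ℕ) (z : ℂ) : pc 1 N z = (z + 1) ^ N := by
  rw [pc, add_pow]; exact sum_congr rfl fun n _ => by simp [mul_comm]

theorem pc_succ (q : ℂ) (N : ℕ) (z : ℂ) : pc q (N + 1) z = pc q N z + z * pc q N (q * z) := by
  unfold pc
  rw [sum_range_succ' _ (N + 1), mul_sum]
  have e : ∑ n ∈ range (N + 1), (N.choose n : ℂ) * q ^ (n.choose 2) * z ^ n =
      ∑ n ∈ range (N + 1), (N.choose (n + 1) : ℂ) * q ^ ((n + 1).choose 2) * z ^ (n + 1) + 1 := by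
    rw [sum_range_succ (fun n => (N.choose (n + 1) : ℂ) * q ^ ((n + 1).choose 2) * z ^ (n + 1)),
      sum_range_succ']
    simp
  rw [e, add_right_comm, ← sum_add_distrib]
  congr 1
  · refine sum_congr rfl fun n _ => ?_
    rw [Nat.choose_succ_succ' N n, Nat.choose_succ_succ' n 1, Nat.choose_one_right]
    push_cast; ring
  · simp

theorem pc_deriv (q : ℂ) (N : ℕ) (z : ℂ) :
    HasDerivAt (pc q (N + 1)) ((N + 1) * pc q N (q * z)) z := by
  have := HasDerivAt.fun_sum (u := range (N + 1 + 1)) (x := z) fun n _ =>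
    (hasDerivAt_pow n z).const_mul (((N + 1).choose n : ℂ) * q ^ (n.choose 2))
  refine this.congr_deriv ?_
  rw [sum_range_succ', pc, mul_sum]
  simp only [Nat.cast_zero, zero_mul, mul_zero, add_zero]
  refine sum_congr rfl fun n _ => ?_
  have e : ((N : ℂ) + 1) * N.choose n = (N + 1).choose (n + 1) * (n + 1) := by
    exact_mod_cast Nat.add_one_mul_choose_eq N n
  rw [Nat.choose_succ_succ' n 1, Nat.choose_one_right, Nat.add_sub_cancel]
  push_cast
  linear_combination -(q ^ (n + n.choose 2) * z ^ n) * e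

theorem sum_choose_le (N : ℕ) (s : Finset ℕ) (hs : s ⊆ range (N + 1)) :
    ∑ n ∈ s, (N.choose n : ℝ) ≤ 2 ^ N := by
  have : ∑ n ∈ range (N + 1), (N.choose n : ℝ) = 2 ^ N := by exact_mod_cast Nat.sum_range_choose N
  rw [← this]
  exact sum_le_sum_of_subset_of_nonneg hs fun _ _ _ => by positivity

theorem pc_lower {q z : ℂ} {N : ℕ} (hq : ‖q‖ ≤ 1) (h : pc q N z = 0) : 1 ≤ 2 ^ N * ‖z‖ := by
  have h2 : (1 : ℝ) ≤ 2 ^ N := one_le_pow₀ one_le_two
  rcases le_total 1 ‖z‖ with hz | hz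
  · nlinarith
  rw [pc, sum_range_succ', add_eq_zero_iff_eq_neg] at h
  have h3 := congrArg norm h
  simp only [Nat.choose_zero_right, Nat.cast_one, Nat.choose_zero_succ, pow_zero, mul_one, norm_neg,
    norm_one] at h3
  rw [← h3]
  refine (norm_sum_le _ _).trans ?_
  have h4 := sum_choose_le N ((range N).map (addRightEmbedding 1)) fun n hn => by
    simp at hn ⊢; omega
  rw [sum_map] at h4
  refine le_trans (sum_le_sum fun n _ => ?_)
    ((sum_mul _ _ _).symm.trans_le (mul_le_mul_of_nonneg_right h4 (norm_nonneg z)))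
  rw [norm_mul, norm_mul, norm_pow, norm_pow, Complex.norm_natCast, pow_succ, mul_assoc]
  refine mul_le_mul_of_nonneg_left ?_ (by positivity)
  rw [← mul_assoc]
  exact mul_le_of_le_one_left (norm_nonneg z) (mul_le_one₀ (pow_le_one₀ (norm_nonneg q) hq)
    (by positivity) (pow_le_one₀ (norm_nonneg z) hz))

theorem pc_upper (t z : ℂ) (N : ℕ) :
    ‖z‖ ≤ (‖pc (Complex.exp (-t)) (N + 1) z‖ + 2 ^ (N + 1) * Real.exp ((N + 1).choose 2 * ‖t‖)) *
      Real.exp ((N + 1).choose 2 * ‖t‖) + 1 := by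
  set K := (N + 1).choose 2
  set E := Real.exp (K * ‖t‖) with hE
  have hE0 : 0 < E := Real.exp_pos _
  rcases le_total ‖z‖ 1 with hz | hz
  · exact hz.trans (le_add_of_nonneg_left (by positivity))
  have hre := abs_le.1 (Complex.abs_re_le_norm t)
  have hq : ∀ k : ℕ, ‖Complex.exp (-t) ^ k‖ = Real.exp (k * -t.re) := fun k => by
    rw [norm_pow, Complex.norm_exp, ← Real.exp_nat_mul]; simp
  have h1 : ‖∑ n ∈ range (N + 1), ((N + 1).choose n : ℂ) * Complex.exp (-t) ^ (n.choose 2) * z ^ n‖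
      ≤ 2 ^ (N + 1) * (E * ‖z‖ ^ N) := by
    refine (norm_sum_le _ _).trans (le_trans (sum_le_sum fun n hn => ?_)
      ((sum_mul _ _ _).symm.trans_le (mul_le_mul_of_nonneg_right
        (sum_choose_le (N + 1) (range (N + 1)) (range_subset_range.2 (by omega))) (by positivity))))
    have hn' := mem_range.1 hn
    rw [norm_mul, norm_mul, hq, norm_pow, Complex.norm_natCast, mul_assoc]
    refine mul_le_mul_of_nonneg_left (mul_le_mul (Real.exp_le_exp.2 ?_)
      (pow_le_pow_right₀ hz (by omega)) (by positivity) hE0.le) (by positivity)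
    have : (n.choose 2 : ℝ) ≤ K := by exact_mod_cast Nat.choose_le_choose 2 hn'.le
    exact (mul_le_mul_of_nonneg_left (by linarith) (by positivity)).trans
      (mul_le_mul_of_nonneg_right this (norm_nonneg t))
  have h2 : E⁻¹ * ‖z‖ ^ (N + 1) ≤
      ‖((N + 1).choose (N + 1) : ℂ) * Complex.exp (-t) ^ K * z ^ (N + 1)‖ := by
    rw [norm_mul, norm_mul, hq, norm_pow, Nat.choose_self, Nat.cast_one, norm_one, one_mul, hE,
      ← Real.exp_neg]
    refine mul_le_mul_of_nonneg_right (Real.exp_le_exp.2 ?_) (by positivity)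
    have : (0 : ℝ) ≤ K := by positivity
    nlinarith
  rw [pc, sum_range_succ]
  set A := ∑ n ∈ range (N + 1), ((N + 1).choose n : ℂ) * Complex.exp (-t) ^ (n.choose 2) * z ^ n
  set B := ((N + 1).choose (N + 1) : ℂ) * Complex.exp (-t) ^ K * z ^ (N + 1)
  have h3 : ‖B‖ ≤ ‖A + B‖ + ‖A‖ := by simpa using norm_sub_le (A + B) A
  have h4 : 1 ≤ ‖z‖ ^ N := one_le_pow₀ hz
  have h5 : E⁻¹ * ‖z‖ * ‖z‖ ^ N ≤ (‖A + B‖ + 2 ^ (N + 1) * E) * ‖z‖ ^ N := by
    rw [pow_succ'] at h2
    nlinarith [norm_nonneg (A + B)]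
  have h6 := le_of_mul_le_mul_right h5 (by positivity)
  rw [inv_mul_le_iff₀ hE0] at h6
  linarith

/-- At most one root on each circle. -/
def OnePer (q : ℂ) (N : ℕ) : Prop := ∀ z w, pc q N z = 0 → pc q N w = 0 → ‖z‖ = ‖w‖ → z = w

theorem onePer_of {q r : ℂ} {N : ℕ} (hr : ‖r‖ < 1) (h : ∀ x w : ℂ, (pp q N).IsRoot x →
    (pp q N).IsRoot w → x ≠ w → ‖x‖ ≤ ‖w‖ → ‖x‖ ≤ ‖r‖ * ‖w‖) : OnePer q N := by
  intro z w hz hw e
  by_contra hne
  have := h z w ((pp_eval ..).trans hz) ((pp_eval ..).trans hw) hne e.le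
  have h0 := norm_pos_iff.2 (pc_ne hw)
  nlinarith

theorem ex_aux (n k : ℕ) : k * n ≤ n.choose 2 + (k + 1).choose 2 ∧
    (n.choose 2 + (k + 1).choose 2 - k * n = 0 ↔ n = k ∨ n = k + 1) := by
  have h1 := two_choose n
  have h2 := two_choose (k + 1)
  have h3 : (2 : ℤ) * (n.choose 2 + (k + 1).choose 2 - k * n) = (n - k) * (n - k - 1) := by
    zify at h1 h2; linear_combination h1 + h2
  have h4 : (0 : ℤ) ≤ (n - k) * (n - k - 1) := by
    rcases le_or_gt (n : ℤ) k with h | h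
    · exact mul_nonneg_of_nonpos_of_nonpos (by omega) (by omega)
    · exact mul_nonneg (by omega) (by omega)
  have h5 : k * n ≤ n.choose 2 + (k + 1).choose 2 := by zify; linarith
  refine ⟨h5, ?_⟩
  zify [h5]
  constructor
  · intro h
    rw [h, mul_zero, eq_comm, mul_eq_zero] at h3
    omega
  · rintro (h | h) <;> rw [h] at h3 ⊢ <;> simp at h3 <;> linarith

theorem small (N : ℕ) : ∀ᶠ q in 𝓝 (0 : ℂ), q ≠ 0 → OnePer q N := by
  set a : ℕ → ℝ := fun k => (N.choose k : ℝ) / N.choose (k + 1) with ha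
  have ha0 : ∀ k < N, 0 < a k := fun k hk =>
    div_pos (by exact_mod_cast Nat.choose_pos hk.le) (by exact_mod_cast Nat.choose_pos hk)
  have h1 : ∀ k ∈ range N, ∀ᶠ q in 𝓝 (0 : ℂ), ∃ w ∈ {w : ℂ | a k / 2 < ‖w‖ ∧ ‖w‖ < 2 * a k},
      ∑ n ∈ range (N + 1), (N.choose n : ℂ) * q ^ (n.choose 2 + (k + 1).choose 2 - k * n) * w ^ n
        = 0 := by
    intro k hk
    have hk' := mem_range.1 hk
    have hp := ha0 k hk'
    have hb : (N.choose (k + 1) : ℂ) ≠ 0 := by exact_mod_cast (Nat.choose_pos hk').ne'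
    have e : ∀ w : ℂ, ∑ n ∈ range (N + 1),
        (N.choose n : ℂ) * 0 ^ (n.choose 2 + (k + 1).choose 2 - k * n) * w ^ n =
        w ^ k * (N.choose k + N.choose (k + 1) * w) := by
      intro w
      rw [sum_eq_add_of_mem k (k + 1) (mem_range.2 (by omega)) (mem_range.2 (by omega)) (by omega),
        (ex_aux k k).2.2 (Or.inl rfl), (ex_aux (k + 1) k).2.2 (Or.inr rfl)]
      · ring
      · intro c _ hc
        rw [zero_pow fun h => by have := (ex_aux c k).2.1 h; omega]; simp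
    have e0 : (N.choose k : ℂ) + N.choose (k + 1) * (-(a k : ℂ)) = 0 := by
      simp only [ha]; push_cast; field_simp; ring
    refine root_near (F := fun x => ∑ n ∈ range (N + 1),
      (N.choose n : ℂ) * x.1 ^ (n.choose 2 + (k + 1).choose 2 - k * n) * x.2 ^ n) (by fun_prop)
      (z := -(a k : ℂ)) (d := (-(a k : ℂ)) ^ k * N.choose (k + 1)) (by simp only [e, e0, mul_zero])
      ?_ (mul_ne_zero (pow_ne_zero _ (neg_ne_zero.2 (by exact_mod_cast hp.ne'))) hb) ?_
    · simp only [e]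
      have := (hasDerivAt_pow k (-(a k : ℂ))).fun_mul
        (((hasDerivAt_id' (-(a k : ℂ))).const_mul (N.choose (k + 1) : ℂ)).const_add
          (N.choose k : ℂ))
      refine this.congr_deriv ?_
      rw [e0]; ring
    · refine ((isOpen_lt continuous_const continuous_norm).inter
        (isOpen_lt continuous_norm continuous_const)).mem_nhds ?_
      have : ‖-(a k : ℂ)‖ = a k := by rw [norm_neg, Complex.norm_real, Real.norm_of_nonneg hp.le]
      constructor <;> simp only [Set.mem_ofPred_eq, this] <;> linarith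
  have h2 : ∀ k ∈ range N, ∀ᶠ q in 𝓝 (0 : ℂ), k + 1 < N → ‖q‖ * (8 * a k) < a (k + 1) := by
    intro k _
    by_cases hk : k + 1 < N
    · have : ContinuousAt (fun q : ℂ => ‖q‖ * (8 * a k)) 0 := by fun_prop
      exact (this.eventually (gt_mem_nhds (by simpa using ha0 _ hk))).mono fun q h _ => h
    · exact Eventually.of_forall fun q h => absurd h hk
  filter_upwards [(eventually_all_finset _).2 h1, (eventually_all_finset _).2 h2] with q h1 h2 hq
  choose! w hw hw' using h1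
  have hq' := norm_pos_iff.2 hq
  have hroot : ∀ j < N, (pp q N).IsRoot (w j / q ^ j) := by
    intro j hj
    refine (pp_eval ..).trans (mul_left_cancel₀ (pow_ne_zero ((j + 1).choose 2) hq) ?_)
    rw [mul_zero, ← hw' j (mem_range.2 hj), pc, mul_sum]
    refine sum_congr rfl fun n _ => ?_
    rw [pow_sub₀ _ hq (ex_aux n j).1, div_pow, ← pow_mul, pow_add]
    ring
  refine onePer_of (r := 1 / 2) (by norm_num) (chain_result N (1 / 2) (by norm_num) _ (pp_ne q N)
    ?_ (fun j => w j / q ^ j) hroot (fun j hj => pc_ne ((pp_eval ..).symm.trans (hroot j hj)))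
    fun j hj => ?_).2
  · exact Polynomial.natDegree_sum_le_of_forall_le _ _ fun n hn =>
      (Polynomial.natDegree_C_mul_X_pow_le _ _).trans (by have := mem_range.1 hn; omega)
  · have b1 := (hw j (mem_range.2 (by omega))).2
    have b2 := (hw (j + 1) (mem_range.2 hj)).1
    have b3 := h2 j (mem_range.2 (by omega)) hj
    rw [show ‖(1 / 2 : ℂ)‖ = 1 / 2 by norm_num, norm_div, norm_div, norm_pow, norm_pow,
      ← mul_div_assoc, div_le_div_iff₀ (by positivity) (by positivity), pow_succ', ← mul_assoc]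
    refine mul_le_mul_of_nonneg_right ?_ (by positivity)
    nlinarith

def SS : Set ℂ := {t | 0 ≤ t.re ∧ Complex.exp (-t) ≠ 1}

theorem mem_SS {t : ℂ} (h : 0 < t.re) : t ∈ SS := ⟨h.le, fun e => by
  have := congrArg norm e
  rw [Complex.norm_exp, norm_one, Real.exp_eq_one_iff] at this
  simp at this; linarith⟩

theorem SS_sc : SimplyConnectedSpace SS := by
  have : StarConvex ℝ 1 SS := fun y hy a b ha hb hab => by
    rcases ha.eq_or_lt with rfl | ha
    · obtain rfl : b = 1 := by linarith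
      simpa using hy
    · refine mem_SS ?_
      have := mul_nonneg hb hy.1
      simp; linarith
  have := this.contractibleSpace ⟨1, mem_SS (by simp)⟩
  infer_instance

theorem SS_rel : IsOpen {t : ℂ | Complex.exp (-t) ≠ 1} := isOpen_ne_fun (by fun_prop) (by fun_prop)

theorem SS_lpc : LocallyPathConnectedSpace SS := by
  have := (convex_halfSpace_re_ge 0).locallyPathConnectedSpace
  refine (IsOpenEmbedding.inclusion (s := SS) (t := {t : ℂ | 0 ≤ t.re}) (fun _ h => h.1)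
    ?_).locallyPathConnectedSpace
  convert SS_rel.preimage continuous_subtype_val using 1
  ext x
  exact ⟨fun h => h.2, fun h => ⟨x.2, h⟩⟩

theorem closed_map (N : ℕ) :
    IsClosedMap fun x : ℂ × ℂ => (x.1, pc (Complex.exp (-x.1)) (N + 1) x.2) := by
  have hc : Continuous fun x : ℂ × ℂ => (x.1, pc (Complex.exp (-x.1)) (N + 1) x.2) := by
    unfold pc; fun_prop
  refine (isProperMap_iff_isCompact_preimage.2 ⟨hc, fun K hK => ?_⟩).isClosedMap
  obtain ⟨R, hR⟩ := hK.isBounded.exists_norm_le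
  refine Metric.isCompact_of_isClosed_isBounded (hK.isClosed.preimage hc)
    (isBounded_iff_forall_norm_le.2 ⟨max R ((R + 2 ^ (N + 1) * Real.exp ((N + 1).choose 2 * R)) *
      Real.exp ((N + 1).choose 2 * R) + 1), fun x hx => ?_⟩)
  have h := hR _ hx
  rw [Prod.norm_def, max_le_iff] at h
  rw [Prod.norm_def]
  refine max_le_max h.1 ((pc_upper x.1 x.2 N).trans ?_)
  have := (norm_nonneg _).trans h.1
  gcongr
  exacts [h.2, h.1, h.1]

/-- Branches of roots on the closed half-plane. -/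
def Br (N : ℕ) (ζ : ℂ → ℂ) : Prop := ContinuousOn ζ {t | 0 ≤ t.re} ∧
  DifferentiableOn ℂ ζ {t | 0 < t.re} ∧ ∀ s, 0 ≤ s.re → pc (Complex.exp (-s)) N (ζ s) = 0

theorem branches (N : ℕ) (hs : ∀ t ∈ SS, ∀ z, pc (Complex.exp (-t)) (N + 1) z = 0 →
    pc (Complex.exp (-t)) N (Complex.exp (-t) * z) ≠ 0) :
    (∀ t ∈ SS, ∀ z, pc (Complex.exp (-t)) (N + 1) z = 0 → ∃ ζ, Br (N + 1) ζ ∧ ζ t = z) ∧
    ∀ ζ η, Br (N + 1) ζ → Br (N + 1) η → ∀ t ∈ SS, ζ t = η t → ∀ s ∈ SS, ζ s = η s := by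
  classical
  have := SS_sc
  have := SS_lpc
  have hF : ContDiff ℂ 1 fun x : ℂ × ℂ => pc (Complex.exp (-x.1)) (N + 1) x.2 := by
    unfold pc; fun_prop
  have hN : (N : ℂ) + 1 ≠ 0 := by exact_mod_cast N.succ_ne_zero
  obtain ⟨h1, h2⟩ := branch hF (closed_map N) SS (fun t _ => by
      simpa only [Polynomial.IsRoot, pp_eval] using
        Polynomial.finite_setOfPred_isRoot (pp_ne (Complex.exp (-t)) (N + 1)))
    fun t ht z hz => ⟨_, mul_ne_zero hN (hs t ht z hz), pc_deriv (Complex.exp (-t)) N z⟩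
  refine ⟨fun t ht z hz => ?_, fun ζ η a b => h2 ζ η (a.1.mono fun _ h => h.1)
    (b.1.mono fun _ h => h.1) (fun s h => a.2.2 s h.1) fun s h => b.2.2 s h.1⟩
  obtain ⟨ζ, c1, c2, c3⟩ := h1 t ht z hz
  set ξ : ℂ → ℂ := fun s => if s ∈ SS then ζ s else -1 with hξ
  have d1 : ∀ s ∈ SS, ξ s = ζ s := fun s h => if_pos h
  have d2 : ∀ s, 0 ≤ s.re → pc (Complex.exp (-s)) (N + 1) (ξ s) = 0 := by
    intro s h
    by_cases h' : s ∈ SS
    · rw [d1 s h']; exact c2 s h'
    · rw [show ξ s = -1 from if_neg h', not_not.1 fun e => h' ⟨h, e⟩, pc_one]; simp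
  have d3 : ContinuousOn ξ {t | 0 ≤ t.re} := by
    intro s h
    by_cases h' : s ∈ SS
    · refine ((c1.congr d1) s h').mono_of_mem_nhdsWithin ?_
      exact inter_mem_nhdsWithin _ (SS_rel.mem_nhds h'.2)
    · have e : Complex.exp (-s) = 1 := not_not.1 fun e => h' ⟨h, e⟩
      have e1 := isClosedMap_iff_comap_nhds_le.1 (closed_map N) (y := (s, 0))
      have e2 : (fun x : ℂ × ℂ => (x.1, pc (Complex.exp (-x.1)) (N + 1) x.2)) ⁻¹' {(s, 0)} ⊆
          {(s, -1)} := by
        rintro ⟨a, b⟩ hx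
        obtain ⟨rfl, h3⟩ := Prod.mk.inj hx
        simp only [e, pc_one] at h3
        exact Prod.ext rfl (eq_neg_of_add_eq_zero_left (pow_eq_zero_iff N.succ_ne_zero |>.1 h3))
      have e3 : Tendsto (fun u => (u, ξ u)) (𝓝[{t | 0 ≤ t.re}] s) (𝓝 (s, -1)) := by
        rw [← nhdsSet_singleton]
        refine Tendsto.mono_right (tendsto_comap_iff.2 ?_) (e1.trans (nhdsSet_mono e2))
        refine Tendsto.congr' (f₁ := fun u => (u, (0 : ℂ))) ?_
          (continuousAt_id.prodMk continuousAt_const).continuousWithinAt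
        filter_upwards [self_mem_nhdsWithin] with u hu
        exact Prod.ext rfl (d2 u hu).symm
      rw [ContinuousWithinAt, show ξ s = -1 from if_neg h']
      exact (continuous_snd.tendsto _).comp e3
  refine ⟨ξ, ⟨d3, fun s h => ?_, d2⟩, (d1 t ht).trans c3⟩
  have ho : {t : ℂ | 0 ≤ t.re} ∈ 𝓝 s :=
    mem_of_superset ((isOpen_lt continuous_const Complex.continuous_re).mem_nhds h)
      fun u (h : 0 < u.re) => show 0 ≤ u.re from h.le
  exact (branch_diff hF (d3.continuousAt ho) (mem_of_superset ho d2)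
    (pc_deriv (Complex.exp (-s)) N (ξ s))
    (mul_ne_zero hN (hs s (mem_SS h) _ (d2 s (le_of_lt h))))).differentiableWithinAt

theorem norm_exp_neg (t : ℂ) : ‖Complex.exp (-t)‖ = Real.exp (-t.re) := by
  rw [Complex.norm_exp]; simp

theorem real_case (N : ℕ) (q : ℂ) (him : q.im = 0) (hq : ‖q‖ < 1) (x w : ℂ) (hx : pc q (N + 1) x = 0)
    (hw : pc q (N + 1) w = 0) (hne : x ≠ w) (h : ‖x‖ ≤ ‖w‖) : ‖x‖ ≤ ‖q‖ * ‖w‖ :=
  (result_of_chain (N + 1) N.succ_pos q hq (fun _ h0 => chain_real _ q h0 him hq) _ rfl).2 x w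
    ((pp_eval ..).trans hx) ((pp_eval ..).trans hw) hne h

theorem key (N : ℕ) (hB : ∀ q : ℂ, ‖q‖ = 1 → q ≠ 1 → OnePer q (N + 1)) {ζ η : ℂ → ℂ}
    (hζ : Br (N + 1) ζ) (hη : Br (N + 1) η) (hne : ∀ s ∈ SS, ζ s ≠ η s) {T : ℝ} (hT : 0 < T)
    (hT' : ∀ q : ℂ, ‖q‖ = Real.exp (-T) → OnePer q (N + 1)) (h0 : ‖ζ T‖ < ‖η T‖) :
    ∀ s : ℂ, 0 < s.re → ‖ζ s‖ < ‖Complex.exp (-s)‖ * ‖η s‖ := by
  have sign : ∀ γ : ℝ → ℂ, Continuous γ → ∀ a b : ℝ,
      (∀ x ∈ Set.uIcc a b, γ x ∈ SS ∧ OnePer (Complex.exp (-γ x)) (N + 1)) →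
      ‖ζ (γ a)‖ < ‖η (γ a)‖ → ‖ζ (γ b)‖ < ‖η (γ b)‖ := by
    intro γ hγ a b h ha
    by_contra hb
    have hm : Set.MapsTo γ (Set.uIcc a b) {t | 0 ≤ t.re} := fun x hx => (h x hx).1.1
    obtain ⟨x, hx, e⟩ := isPreconnected_uIcc.intermediate_value₂ Set.left_mem_uIcc
      Set.right_mem_uIcc (hζ.1.comp hγ.continuousOn hm).norm (hη.1.comp hγ.continuousOn hm).norm
      ha.le (not_lt.1 hb)
    exact hne _ (h x hx).1 ((h x hx).2 _ _ (hζ.2.2 _ (hm hx)) (hη.2.2 _ (hm hx)) e)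
  have hlt : ∀ s : ℂ, 0 < s.re → ‖Complex.exp (-s)‖ < 1 := fun s h => by
    rw [norm_exp_neg, Real.exp_lt_one_iff]; linarith
  have hreal : ∀ s : ℂ, 0 < s.re → (Complex.exp (-s)).im = 0 →
      s ∈ SS ∧ OnePer (Complex.exp (-s)) (N + 1) := fun s h him =>
    ⟨mem_SS h, onePer_of (hlt s h) fun x w hx hw => real_case N _ him (hlt s h) x w
      ((pp_eval ..).symm.trans hx) ((pp_eval ..).symm.trans hw)⟩
  have hbd : ∀ y : ℝ, Complex.exp (-(y * Complex.I)) ≠ 1 →
      (y * Complex.I : ℂ) ∈ SS ∧ OnePer (Complex.exp (-(y * Complex.I))) (N + 1) := fun y h =>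
    ⟨⟨by simp, h⟩, hB _ (by simp [norm_exp_neg]) h⟩
  have hint : ∀ y : ℝ, Complex.exp (-(y * Complex.I)) = 1 ↔ ∃ n : ℤ, y = n * (2 * Real.pi) := by
    intro y
    rw [Complex.exp_neg, inv_eq_one, Complex.exp_eq_one_iff]
    refine exists_congr fun n => ⟨fun h => ?_, fun h => by rw [h]; push_cast; ring⟩
    simpa using congrArg Complex.im h
  have hpi := Real.pi_pos
  have a1 : ∀ y : ℝ, Complex.exp (-(y * Complex.I)) ≠ 1 →
      ‖ζ (y * Complex.I)‖ < ‖η (y * Complex.I)‖ := by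
    intro y hy
    set k := ⌊y / (2 * Real.pi)⌋
    have k1 : k * (2 * Real.pi) < y := lt_of_le_of_ne
      ((le_div_iff₀ (by positivity)).1 (Int.floor_le _)) fun e => hy ((hint y).2 ⟨k, e.symm⟩)
    have k2 : y < (k + 1) * (2 * Real.pi) :=
      (div_lt_iff₀ (by positivity)).1 (Int.lt_floor_add_one _)
    have k3 : ∀ x : ℝ, k * (2 * Real.pi) < x → x < (k + 1) * (2 * Real.pi) →
        Complex.exp (-(x * Complex.I)) ≠ 1 := by
      intro x b1 b2 e
      obtain ⟨n, rfl⟩ := (hint x).1 e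
      have c1 : k < n := by exact_mod_cast lt_of_mul_lt_mul_right b1 (by positivity)
      have c2 : n < k + 1 := by exact_mod_cast lt_of_mul_lt_mul_right b2 (by positivity)
      omega
    set m : ℝ := (2 * k + 1 : ℤ) * Real.pi with hm
    have m1 : k * (2 * Real.pi) < m := by rw [hm]; push_cast; linarith
    have m2 : m < (k + 1) * (2 * Real.pi) := by rw [hm]; push_cast; linarith
    have s1 := sign (fun x => T + x * Complex.I) (by fun_prop) 0 m (fun x _ =>
      ⟨mem_SS (by simpa using hT), hT' _ (by rw [norm_exp_neg]; simp)⟩) (by simpa using h0)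
    have s2 := sign (fun x => x + m * Complex.I) (by fun_prop) T 0 (fun x hx => by
      rw [Set.uIcc_of_ge hT.le] at hx
      rcases hx.1.eq_or_lt with rfl | h
      · simpa using hbd m (k3 m m1 m2)
      · refine hreal _ (by simpa using h) ?_
        rw [Complex.exp_im]
        simp only [Complex.neg_im, Complex.add_im, Complex.ofReal_im, Complex.mul_im,
          Complex.ofReal_re, Complex.I_im, mul_one, Complex.I_re, mul_zero, add_zero, zero_add,
          Real.sin_neg, hm, Real.sin_int_mul_pi, neg_zero]) s1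
    refine sign (fun x => x * Complex.I) (by fun_prop) m y (fun x hx => hbd x (k3 x ?_ ?_))
      (by simpa using s2)
    · exact (lt_min m1 k1).trans_le hx.1
    · exact hx.2.trans_lt (max_lt m2 k2)
  have hη0 : ∀ s : ℂ, 0 ≤ s.re → η s ≠ 0 := fun s h => pc_ne (hη.2.2 s h)
  set g : ℂ → ℂ := fun s => ζ s / η s * Complex.exp s with hg
  have hgn : ∀ s : ℂ, ‖g s‖ = ‖ζ s‖ / (‖Complex.exp (-s)‖ * ‖η s‖) := fun s => by
    simp only [hg, Complex.exp_neg, norm_mul, norm_inv, div_eq_mul_inv, mul_inv, inv_inv]; ring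
  have hpos : ∀ s : ℂ, 0 ≤ s.re → 0 < ‖Complex.exp (-s)‖ * ‖η s‖ := fun s h =>
    mul_pos (norm_pos_iff.2 (Complex.exp_ne_zero _)) (norm_pos_iff.2 (hη0 s h))
  have hd : DiffContOnCl ℂ g {s | 0 < s.re} := by
    refine ⟨(hζ.2.1.div hη.2.1 fun s h => hη0 s (le_of_lt h)).mul (by fun_prop), ?_⟩
    rw [Complex.closure_setOfPred_lt_re]
    exact (hζ.1.div hη.1 hη0).mul (by fun_prop)
  have a2 : ∀ y : ℝ, ‖g (y * Complex.I)‖ = ‖ζ (y * Complex.I)‖ / ‖η (y * Complex.I)‖ := by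
    intro y; rw [hgn]; simp [norm_exp_neg]
  have hle : ∀ s : ℂ, 0 ≤ s.re → ‖g s‖ ≤ 1 := by
    intro s hs
    refine PhragmenLindelof.right_half_plane_of_bounded_on_real hd
      ⟨1, one_lt_two, 2 * (N + 1).choose 2 + 1, ?_⟩ ⟨1, ?_⟩ (fun y => ?_) hs
    · refine Asymptotics.IsBigO.of_bound ((2 ^ (N + 1) + 1) * 2 ^ (N + 1))
        (eventually_inf_principal.2 (Eventually.of_forall fun u (hu : 0 < u.re) => ?_))
      have b1 := pc_upper u (ζ u) N
      have b2 := pc_lower (hlt u hu).le (hη.2.2 u hu.le)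
      rw [hζ.2.2 u hu.le, norm_zero, zero_add] at b1
      set E := Real.exp ((N + 1).choose 2 * ‖u‖) with hE
      have b3 : 1 ≤ E := Real.one_le_exp (by positivity)
      have b4 : ‖Complex.exp u‖ ≤ Real.exp ‖u‖ := Complex.norm_exp_le_exp_norm u
      have b5 : ‖ζ u‖ ≤ (2 ^ (N + 1) + 1) * (E * E) := by nlinarith
      have b6 : ‖η u‖⁻¹ ≤ 2 ^ (N + 1) := by
        rw [inv_le_iff_one_le_mul₀ (norm_pos_iff.2 (hη0 u hu.le))]; exact b2
      rw [Real.rpow_one, Real.norm_of_nonneg (Real.exp_pos _).le, hg, norm_mul, norm_div,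
        div_eq_mul_inv, show Real.exp ((2 * ((N + 1).choose 2 : ℕ) + 1) * ‖u‖) =
          E * E * Real.exp ‖u‖ by rw [hE, ← Real.exp_add, ← Real.exp_add]; congr 1; ring]
      calc _ ≤ (2 ^ (N + 1) + 1) * (E * E) * 2 ^ (N + 1) * Real.exp ‖u‖ := by gcongr
        _ = _ := by ring
    · refine eventually_map.2 ((eventually_gt_atTop 0).mono fun x (hx : 0 < x) => ?_)
      have hx' : 0 < (x : ℂ).re := by simpa using hx
      have him : ∀ x : ℝ, (Complex.exp (-x)).im = 0 := fun x => by simp [Complex.exp_im]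
      have s1 := sign (fun x => x) (by fun_prop) T x (fun x h =>
        hreal _ (by simpa using (lt_min hT hx).trans_le h.1) (him x)) h0
      show ‖g x‖ ≤ 1
      rw [hgn, div_le_one (hpos _ hx'.le)]
      exact real_case N _ (him x) (hlt _ hx') _ _ (hζ.2.2 _ hx'.le) (hη.2.2 _ hx'.le)
        (hne _ (mem_SS hx')) s1.le
    · have hy : 0 ≤ (y * Complex.I : ℂ).re := by simp
      rw [a2, div_le_one (norm_pos_iff.2 (hη0 _ hy))]
      by_cases h : Complex.exp (-(y * Complex.I)) = 1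
      · have b1 := hζ.2.2 _ hy
        have b2 := hη.2.2 _ hy
        rw [h, pc_one, pow_eq_zero_iff N.succ_ne_zero, add_eq_zero_iff_eq_neg] at b1 b2
        rw [b1, b2]
      · exact (a1 y h).le
  intro s hs
  rw [← div_lt_one (hpos s hs.le), ← hgn]
  refine lt_of_le_of_ne (hle s hs.le) fun e => ?_
  have b1 := Complex.norm_eqOn_closure_of_isPreconnected_of_isMaxOn
    (convex_halfSpace_re_gt 0).isPreconnected
    (isOpen_lt continuous_const Complex.continuous_re) hd hs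
    (fun u (hu : 0 < u.re) => (hle u hu.le).trans_eq e.symm)
  rw [Complex.closure_setOfPred_lt_re] at b1
  have hy : 0 ≤ (Real.pi * Complex.I : ℂ).re := by simp
  have b2 : ‖g (Real.pi * Complex.I)‖ = ‖g s‖ := b1 hy
  rw [e, a2, div_eq_one_iff_eq (norm_pos_iff.2 (hη0 _ hy)).ne'] at b2
  refine (a1 Real.pi ?_).ne b2
  rw [Complex.exp_neg, Complex.exp_pi_mul_I]; norm_num

theorem strict (hB : ∀ N, ∀ q : ℂ, ‖q‖ = 1 → q ≠ 1 → OnePer q N) (N : ℕ) :
    ∀ q : ℂ, q ≠ 0 → ‖q‖ < 1 → ∀ z w, pc q N z = 0 → pc q N w = 0 → z ≠ w → ‖z‖ ≤ ‖w‖ →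
      ‖z‖ < ‖q‖ * ‖w‖ := by
  induction N with
  | zero => intro q _ _ z w hz; simp [pc] at hz
  | succ N ih =>
    obtain ⟨h1, h2⟩ := branches N fun t ht z hz h => by
      have hz0 := pc_ne hz
      rw [pc_succ, h, mul_zero, add_zero] at hz
      have hne : Complex.exp (-t) * z ≠ z := fun e => ht.2 (by simpa [hz0] using e)
      rcases ht.1.eq_or_lt with e | e
      · have : ‖Complex.exp (-t)‖ = 1 := by rw [norm_exp_neg, ← e]; simp
        exact hne (hB N _ this ht.2 _ _ h hz (by rw [norm_mul, this, one_mul]))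
      · have : ‖Complex.exp (-t)‖ < 1 := by rw [norm_exp_neg, Real.exp_lt_one_iff]; linarith
        refine (ih _ (Complex.exp_ne_zero _) this _ _ h hz hne ?_).ne (norm_mul ..)
        rw [norm_mul]; exact mul_le_of_le_one_left (norm_nonneg _) this.le
    obtain ⟨ε, hε, h3⟩ := Metric.eventually_nhds_iff.1 (small (N + 1))
    obtain ⟨T, hT, hT1⟩ : ∃ T : ℝ, 0 < T ∧ Real.exp (-T) < ε :=
      ((eventually_gt_atTop 0).and
        (Real.tendsto_exp_neg_atTop_nhds_zero.eventually (gt_mem_nhds hε))).exists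
    have hT' : ∀ q : ℂ, ‖q‖ = Real.exp (-T) → OnePer q (N + 1) := fun q hq =>
      h3 (by rwa [dist_zero_right, hq]) (norm_pos_iff.1 (hq ▸ Real.exp_pos _))
    intro q hq0 hq z w hz hw hne hle
    obtain ⟨t, rfl⟩ : ∃ t, q = Complex.exp (-t) := ⟨-Complex.log q, by simp [Complex.exp_log hq0]⟩
    have ht : 0 < t.re := by rw [norm_exp_neg, Real.exp_lt_one_iff] at hq; linarith
    obtain ⟨ζ, a1, rfl⟩ := h1 t (mem_SS ht) z hz
    obtain ⟨η, a2, rfl⟩ := h1 t (mem_SS ht) w hw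
    have a3 : ∀ s ∈ SS, ζ s ≠ η s := fun s hs e => hne (h2 ζ η a1 a2 s hs e t (mem_SS ht))
    have hTr : 0 < (T : ℂ).re := by simpa using hT
    rcases lt_trichotomy ‖ζ T‖ ‖η T‖ with h | h | h
    · exact key N (hB _) a1 a2 a3 hT hT' h t ht
    · exact absurd (hT' _ (by simp [norm_exp_neg]) _ _ (a1.2.2 _ hTr.le) (a2.2.2 _ hTr.le) h)
        (a3 _ (mem_SS hTr))
    · have := key N (hB _) a2 a1 (fun s hs => (a3 s hs).symm) hT hT' h t ht
      nlinarith [norm_nonneg (ζ t)]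

/-- If for unimodular `q ≠ 1` every circle carries at most one root, then the conjecture holds. -/
theorem reduction (hB : ∀ N, ∀ q : ℂ, ‖q‖ = 1 → q ≠ 1 → OnePer q N) :
    ∀ N : ℕ, 0 < N → ∀ q : ℂ, ‖q‖ < 1 →
      ∀ P : Polynomial ℂ,
        P = ∑ n ∈ Finset.range (N + 1),
              Polynomial.C ((N.choose n : ℂ) * q ^ (n * (n - 1) / 2)) * Polynomial.X ^ n →
        P.roots.Nodup ∧
          ∀ z w : ℂ, P.IsRoot z → P.IsRoot w → z ≠ w → ‖z‖ ≤ ‖w‖ →
            ‖z‖ ≤ ‖q‖ * ‖w‖ := by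
  classical
  intro N hN q hq P hP
  by_cases hq0 : q = 0
  · exact result_of_chain N hN q hq (fun _ h => absurd hq0 h) P hP
  obtain rfl : P = pp q N := hP
  refine ⟨Multiset.nodup_iff_count_le_one.2 fun z => ?_, fun z w hz hw hne h =>
    (strict hB N q hq0 hq z w ((pp_eval ..).symm.trans hz) ((pp_eval ..).symm.trans hw) hne h).le⟩
  obtain ⟨N, rfl⟩ : ∃ n, N = n + 1 := ⟨N - 1, by omega⟩
  rw [Polynomial.count_roots, ← not_lt, Polynomial.one_lt_rootMultiplicity_iff_isRoot (pp_ne _ _)]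
  rintro ⟨h1, h2⟩
  have e1 : pc q (N + 1) z = 0 := (pp_eval ..).symm.trans h1
  have e2 := (Polynomial.hasDerivAt (pp q (N + 1)) z).unique (by
    simpa only [pp_eval] using pc_deriv q N z)
  have hN : (N : ℂ) + 1 ≠ 0 := by exact_mod_cast N.succ_ne_zero
  have e3 := (mul_eq_zero.1 (e2.symm.trans h2)).resolve_left hN
  have hz0 := pc_ne e1
  rw [pc_succ, e3, mul_zero, add_zero] at e1
  refine (strict hB N q hq0 hq _ _ e3 e1 (fun e => hq.ne ?_) ?_).ne (norm_mul ..)
  · rw [show q = 1 by simpa [hz0] using e, norm_one]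
  · rw [norm_mul]; exact mul_le_of_le_one_left (norm_nonneg _) hq.le

end Pool.Agent.MP_97ada9_an
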