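import Mathlib

/-! The continuity method: a root stays trapped in a moving region. -/

set_option autoImplicit false

namespace Pool.Agent.MP_97ada9_an

open Set

def Trap (F : ℝ → ℂ → ℂ) (τ : ℝ → ℂ → ℝ) : Prop :=
  ContinuousOn (fun p : ℝ × ℂ => τ p.1 p.2) (Icc 0 1 ×ˢ {v | v ≠ 0}) ∧
  (∃ R : ℝ, ∀ t ∈ Icc (0 : ℝ) 1, ∀ v, v ≠ 0 → τ t v ≤ 0 → ‖v‖ ≤ R ∧ ‖v⁻¹‖ ≤ R) ∧
  (∀ t ∈ Icc (0 : ℝ) 1, ∀ v, v ≠ 0 → τ t v = 0 → F t v ≠ 0) ∧ τ 0 1 < 0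

theorem Trap.max {F : ℝ → ℂ → ℂ} {τ σ : ℝ → ℂ → ℝ} (h1 : Trap F τ) (h2 : Trap F σ) :
    Trap F (fun t v => max (τ t v) (σ t v)) := by
  obtain ⟨a1, ⟨R, a2⟩, a3, a4⟩ := h1
  obtain ⟨b1, -, b3, b4⟩ := h2
  refine ⟨a1.sup b1, ⟨R, fun t ht v hv h => a2 t ht v hv (le_trans (le_max_left _ _) h)⟩,
    fun t ht v hv h => ?_, max_lt a4 b4⟩
  rcases max_choice (τ t v) (σ t v) with h' | h'
  · exact a3 t ht v hv (h'.symm.trans h)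
  · exact b3 t ht v hv (h'.symm.trans h)

theorem Trap.inv {F F' : ℝ → ℂ → ℂ} {τ : ℝ → ℂ → ℝ} (h1 : Trap F τ)
    (hF : ∀ t v, v ≠ 0 → F' t v = 0 → F t v⁻¹ = 0) : Trap F' (fun t v => τ t v⁻¹) := by
  obtain ⟨a1, ⟨R, a2⟩, a3, a4⟩ := h1
  refine ⟨?_, ⟨R, fun t ht v hv h => ?_⟩, fun t ht v hv h h' => ?_, by simpa using a4⟩
  · have : ContinuousOn (fun p : ℝ × ℂ => (p.1, p.2⁻¹)) (Icc 0 1 ×ˢ {v | v ≠ 0}) :=
      continuousOn_fst.prodMk (continuousOn_snd.inv₀ fun p hp => hp.2)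
    exact a1.comp this fun p hp => ⟨hp.1, inv_ne_zero hp.2⟩
  · have := a2 t ht v⁻¹ (inv_ne_zero hv) h
    rw [inv_inv] at this
    exact this.symm
  · exact a3 t ht v⁻¹ (inv_ne_zero hv) h (hF t v hv h')

theorem Trap.root {F : ℝ → ℂ → ℂ} {τ : ℝ → ℂ → ℝ} (h : Trap F τ)
    (hc : ContinuousOn (fun p : ℝ × ℂ => F p.1 p.2) (Icc 0 1 ×ˢ {v | v ≠ 0}))
    (hd : ∀ t, DifferentiableOn ℂ (F t) {v | v ≠ 0}) (h0 : F 0 1 = 0) :
    ∃ v, v ≠ 0 ∧ τ 1 v ≤ 0 ∧ F 1 v = 0 := by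
  obtain ⟨a1, ⟨R, a2⟩, a3, a4⟩ := h
  have hR : 1 ≤ R := by simpa using (a2 0 (by simp) 1 one_ne_zero a4.le).1
  set A : Set ℂ := {v | R⁻¹ ≤ ‖v‖ ∧ ‖v‖ ≤ R} with hA
  have hA0 : ∀ v ∈ A, v ≠ 0 := by
    intro v hv h
    have := hv.1
    rw [h, norm_zero] at this
    exact absurd this (not_le.2 (by positivity))
  have hAc : IsClosed A :=
    (isClosed_le continuous_const continuous_norm).inter
      (isClosed_le continuous_norm continuous_const)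
  have hAk : IsCompact A :=
    (isCompact_closedBall (0 : ℂ) R).of_isClosed_subset hAc fun v hv => by simpa using hv.2
  have hin : ∀ t ∈ Icc (0 : ℝ) 1, ∀ v, v ≠ 0 → τ t v ≤ 0 → v ∈ A := by
    intro t ht v hv h
    obtain ⟨h1, h2⟩ := a2 t ht v hv h
    rw [norm_inv] at h2
    exact ⟨inv_le_of_inv_le₀ (norm_pos_iff.2 hv) h2, h1⟩
  set K : Set (ℝ × ℂ) := Icc 0 1 ×ˢ A with hK
  have hKk : IsCompact K := isCompact_Icc.prod hAk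
  have hKs : K ⊆ Icc 0 1 ×ˢ {v | v ≠ 0} := fun p hp => ⟨hp.1, hA0 _ hp.2⟩
  have hτK := a1.mono hKs
  have hFK := hc.mono hKs
  -- lower bound on the boundary
  have hZ : IsCompact (K ∩ (fun p : ℝ × ℂ => τ p.1 p.2) ⁻¹' {0}) :=
    hKk.of_isClosed_subset (hτK.preimage_isClosed_of_isClosed hKk.isClosed isClosed_singleton)
      inter_subset_left
  obtain ⟨m0, hm0, hm⟩ : ∃ m0 : ℝ, 0 < m0 ∧
      ∀ p ∈ K ∩ (fun p : ℝ × ℂ => τ p.1 p.2) ⁻¹' {0}, m0 ≤ ‖F p.1 p.2‖ := by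
    rcases (K ∩ (fun p : ℝ × ℂ => τ p.1 p.2) ⁻¹' {0}).eq_empty_or_nonempty with h | h
    · exact ⟨1, one_pos, fun p hp => by rw [h] at hp; exact absurd hp (notMem_empty _)⟩
    · obtain ⟨p, hp, hp'⟩ := hZ.exists_isMinOn h (hFK.mono inter_subset_left).norm
      exact ⟨_, norm_pos_iff.2 (a3 _ hp.1.1 _ (hA0 _ hp.1.2) hp.2), fun q hq => hp' hq⟩
  set Z : Set (ℝ × ℂ) := (K ∩ (fun p : ℝ × ℂ => τ p.1 p.2) ⁻¹' Iic 0) ∩
    (K ∩ (fun p : ℝ × ℂ => F p.1 p.2) ⁻¹' {0}) with hZd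
  have hZk : IsCompact Z :=
    hKk.of_isClosed_subset ((hτK.preimage_isClosed_of_isClosed hKk.isClosed isClosed_Iic).inter
      (hFK.preimage_isClosed_of_isClosed hKk.isClosed isClosed_singleton))
      (inter_subset_left.trans inter_subset_left)
  have hcl : IsClosed (Prod.fst '' Z ∩ Icc (0 : ℝ) 1) :=
    (hZk.image continuous_fst).isClosed.inter isClosed_Icc
  have hmem : ∀ t ∈ Icc (0 : ℝ) 1, ∀ v, v ≠ 0 → τ t v ≤ 0 → F t v = 0 → t ∈ Prod.fst '' Z :=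
    fun t ht v hv h1 h2 => ⟨(t, v), ⟨⟨⟨ht, hin t ht v hv h1⟩, h1⟩, ⟨⟨ht, hin t ht v hv h1⟩, h2⟩⟩, rfl⟩
  have key : Icc (0 : ℝ) 1 ⊆ Prod.fst '' Z := by
    refine hcl.Icc_subset_of_forall_mem_nhdsWithin (hmem 0 (by simp) 1 one_ne_zero a4.le h0) ?_
    rintro t0 ⟨⟨⟨t0', v0⟩, ⟨⟨hp, h1⟩, ⟨-, h2⟩⟩, rfl⟩, ht0⟩
    have hv0 : v0 ≠ 0 := hA0 _ hp.2
    have h1' : τ t0' v0 < 0 := lt_of_le_of_ne h1 fun h => a3 _ hp.1 _ hv0 h h2
    have hline : ContinuousOn (fun t : ℝ => (t, v0)) (Icc 0 1) := by fun_prop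
    have c1 : ContinuousWithinAt (fun t => τ t v0) (Icc 0 1) t0' :=
      (a1.comp hline fun t ht => ⟨ht, hv0⟩) t0' hp.1
    have c2 : ContinuousWithinAt (fun t => ‖F t v0‖) (Icc 0 1) t0' :=
      ((hc.comp hline fun t ht => ⟨ht, hv0⟩) t0' hp.1).norm
    have e1 : ∀ᶠ t in nhdsWithin t0' (Icc 0 1), τ t v0 < 0 := c1.eventually (gt_mem_nhds h1')
    have e2 : ∀ᶠ t in nhdsWithin t0' (Icc 0 1), ‖F t v0‖ < m0 := by
      refine c2.eventually (gt_mem_nhds ?_)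
      have : F t0' v0 = 0 := h2
      simpa [this] using hm0
    have hI : Icc (0 : ℝ) 1 ∈ nhdsWithin t0' (Ioi t0') := Icc_mem_nhdsGT_of_mem ht0
    have hle : nhdsWithin t0' (Ioi t0') ≤ nhdsWithin t0' (Icc 0 1) :=
      nhdsWithin_le_iff.2 hI
    filter_upwards [hle e1, hle e2, hI] with t e1 e2 ht
    by_contra hno
    have hne : ∀ v, v ≠ 0 → τ t v ≤ 0 → F t v ≠ 0 := fun v hv h h' => hno (hmem t ht v hv h h')
    have hl2 : ContinuousOn (fun v : ℂ => (t, v)) {v | v ≠ 0} := by fun_prop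
    have cτ : ContinuousOn (fun v => τ t v) {v | v ≠ 0} := a1.comp hl2 fun v hv => ⟨ht, hv⟩
    set U : Set ℂ := {v | v ≠ 0} ∩ (fun v => τ t v) ⁻¹' Iio 0 with hU
    have hUo : IsOpen U := cτ.isOpen_inter_preimage isOpen_ne isOpen_Iio
    have hcl2 : closure U ⊆ A ∩ (fun v => τ t v) ⁻¹' Iic 0 :=
      closure_minimal (fun v hv => ⟨hin t ht v hv.1 (le_of_lt hv.2),
        (le_of_lt hv.2 : τ t v ≤ 0)⟩)
        ((cτ.mono hA0).preimage_isClosed_of_isClosed hAc isClosed_Iic)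
    have hbd : Bornology.IsBounded U :=
      hAk.isBounded.subset fun v hv => (hcl2 (subset_closure hv)).1
    have hdiff : DifferentiableOn ℂ (fun v => (F t v)⁻¹) (closure U) :=
      ((hd t).mono fun v hv => hA0 v (hcl2 hv).1).inv fun v hv =>
        hne v (hA0 v (hcl2 hv).1) (hcl2 hv).2
    have := Complex.norm_le_of_forall_mem_frontier_norm_le (C := m0⁻¹) hbd hdiff.diffContOnCl
      (fun v hv => ?_) (subset_closure (⟨hv0, e1⟩ : v0 ∈ U))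
    · rw [norm_inv] at this
      have h3 : 0 < ‖F t v0‖ := norm_pos_iff.2 (hne v0 hv0 e1.le)
      rw [inv_le_inv₀ h3 hm0] at this
      linarith
    · rw [hUo.frontier_eq] at hv
      have h3 := hcl2 hv.1
      have h4 : τ t v = 0 := le_antisymm h3.2 (not_lt.1 fun h => hv.2 ⟨hA0 v h3.1, h⟩)
      rw [norm_inv]
      exact inv_anti₀ hm0 (hm (t, v) ⟨⟨ht, h3.1⟩, h4⟩)
  obtain ⟨⟨t, v⟩, ⟨⟨hp, h1⟩, ⟨-, h2⟩⟩, rfl⟩ := key (show (1 : ℝ) ∈ Icc 0 1 by simp)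
  exact ⟨v, hA0 v hp.2, h1, h2⟩

end Pool.Agent.MP_97ada9_an
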